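import Pool.Agent.H55.BG.Stm

/-! BG-CDT (helper91): all terms of the trajectory of `T_d`. -/

set_option autoImplicit false

namespace Pool.Agent.H55.BG.CDT

open Finset Filter Topology Pool.Agent.H55.BG Pool.Agent.H499R2.ND
open Pool.Agent.TH977.IP (Sy ex Sy_spec)

theorem Td_even {d x : ℤ} (h : x % 2 = 0) : Td d x = x / 2 := by
  unfold Td
  rw [if_pos h]

theorem Td_odd {d x : ℤ} (h : Odd x) : Td d x = (3 * x + d) / 2 := by
  unfold Td
  rw [if_neg]
  have := Int.odd_iff.1 h
  omega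

theorem T_two (d x : ℤ) (v : ℕ) : ∀ i ≤ v, (Td d)^[i] (2 ^ v * x) = 2 ^ (v - i) * x := by
  intro i
  induction i with
  | zero => intro _; rfl
  | succ i ih =>
    intro h
    rw [Function.iterate_succ_apply', ih (by omega)]
    obtain ⟨c, hc⟩ : ∃ c, v - i = c + 1 := ⟨v - i - 1, by omega⟩
    have h2 : v - (i + 1) = c := by omega
    rw [hc, h2, pow_succ, mul_right_comm, mul_comm, Td_even (Int.mul_emod_right _ _),
      Int.mul_ediv_cancel_left _ (by norm_num)]

theorem T_block {d x : ℤ} (hx : Odd x) (i : ℕ) : 1 ≤ i → (2 : ℤ) ^ i ∣ 3 * x + d →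
    (Td d)^[i] x = (3 * x + d) / 2 ^ i := by
  induction i with
  | zero => intro h; omega
  | succ i ih =>
    intro _ hd
    rcases Nat.eq_zero_or_pos i with hi | hi
    · subst hi
      simpa using Td_odd hx
    · rw [Function.iterate_succ_apply', ih hi ((pow_dvd_pow 2 (Nat.le_succ i)).trans hd)]
      obtain ⟨c, hc⟩ := hd
      have h1 : (3 * x + d) / 2 ^ i = 2 * c := by
        rw [hc, pow_succ, mul_assoc, Int.mul_ediv_cancel_left _ (by positivity)]
      have h2 : (3 * x + d) / 2 ^ (i + 1) = c := by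
        rw [hc, Int.mul_ediv_cancel_left _ (by positivity)]
      rw [h1, h2, Td_even (Int.mul_emod_right _ _), Int.mul_ediv_cancel_left _ (by norm_num)]

theorem odd_iter {d : ℤ} (hd : Odd d) (hd3 : IsCoprime d 3) {x : ℤ} (hx : Odd x) (j : ℕ) :
    Odd ((Sy d)^[j] x) := by
  induction j with
  | zero => exact hx
  | succ j ih =>
    rw [Function.iterate_succ_apply']
    exact (Sy_spec hd hd3 ih).2.1

theorem Sg_succ (d : ℤ) (n j : ℕ) : Sg d n (j + 1) = Sg d n j + wt d n j := Finset.sum_range_succ _ _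

theorem T_S {d : ℤ} (hd : Odd d) (hd3 : IsCoprime d 3) {m : ℕ} (hm : Odd (m : ℤ)) (j : ℕ) :
    (Td d)^[Sg d m j] (m : ℤ) = (Sy d)^[j] (m : ℤ) := by
  induction j with
  | zero => simp [Sg]
  | succ j ih =>
    rw [Sg_succ, add_comm, Function.iterate_add_apply, ih, Function.iterate_succ_apply']
    obtain ⟨h1, h2, h3⟩ := Sy_spec hd hd3 (odd_iter hd hd3 hm j)
    have h4 : (2 : ℤ) ^ wt d m j ∣ 3 * (Sy d)^[j] (m : ℤ) + d := by
      rw [h3]
      exact Dvd.intro _ rfl
    rw [T_block (odd_iter hd hd3 hm j) (wt d m j) h1 h4]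
    rfl

theorem T_tt {d : ℤ} (hd : Odd d) (hd3 : IsCoprime d 3) {m : ℕ} (hm : Odd (m : ℤ)) (v j : ℕ) :
    (Td d)^[v + Sg d m j] (2 ^ v * (m : ℤ)) = (Sy d)^[j] (m : ℤ) := by
  rw [add_comm, Function.iterate_add_apply, T_two d m v v le_rfl, Nat.sub_self, pow_zero, one_mul,
    T_S hd hd3 hm]

theorem T_mid {d : ℤ} (hd : Odd d) (hd3 : IsCoprime d 3) {m : ℕ} (hm : Odd (m : ℤ)) (v j s : ℕ)
    (h1 : 1 ≤ s) (h2 : s ≤ wt d m j) :
    (Td d)^[v + Sg d m j + s] (2 ^ v * (m : ℤ)) = (3 * (Sy d)^[j] (m : ℤ) + d) / 2 ^ s := by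
  rw [add_comm, Function.iterate_add_apply, T_tt hd hd3 hm]
  obtain ⟨_, _, h3⟩ := Sy_spec hd hd3 (odd_iter hd hd3 hm j)
  have h4 : (2 : ℤ) ^ wt d m j ∣ 3 * (Sy d)^[j] (m : ℤ) + d := by
    rw [h3]
    exact Dvd.intro _ rfl
  exact T_block (odd_iter hd hd3 hm j) s h1 ((pow_dvd_pow 2 h2).trans h4)

theorem pos (d : ℤ) (v m : ℕ) (J k : ℕ) (hk : k < v + Sg d m J) :
    k < v ∨ ∃ j < J, ∃ s ≤ wt d m j, k = v + Sg d m j + s := by
  induction J with
  | zero =>
    left
    simpa [Sg] using hk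
  | succ J ih =>
    rcases Nat.lt_or_ge k (v + Sg d m J) with h | h
    · rcases ih h with h1 | ⟨j, hj, s, hs, h2⟩
      · exact Or.inl h1
      · exact Or.inr ⟨j, by omega, s, hs, h2⟩
    · rw [Sg_succ] at hk
      exact Or.inr ⟨J, by omega, k - (v + Sg d m J), by omega, by omega⟩

/-- the correction -/
noncomputable def E (d : ℤ) (m j : ℕ) : ℝ :=
  Real.log (((Sy d)^[j] (m : ℤ) : ℤ) : ℝ) - Real.log m - j * Real.log 3 + Sg d m j * Real.log 2

theorem log_small {t : ℝ} (h1 : -(1 / 3) ≤ t) : |Real.log (1 + t)| ≤ 3 / 2 * |t| := by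
  have h0 : 0 < 1 + t := by linarith
  have h2 := Real.log_le_sub_one_of_pos h0
  have h3 := Real.one_sub_inv_le_log_of_pos h0
  rcases le_total 0 t with ht | ht
  · have h4 : 0 ≤ Real.log (1 + t) := Real.log_nonneg (by linarith)
    rw [abs_of_nonneg h4, abs_of_nonneg ht]
    linarith
  · have h4 : Real.log (1 + t) ≤ 0 := by linarith
    rw [abs_of_nonpos h4, abs_of_nonpos ht]
    have h5 : 1 - (1 + t)⁻¹ = t / (1 + t) := by
      field_simp
      ring
    rw [h5] at h3
    have h6 : 3 / 2 * t ≤ t / (1 + t) := by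
      rw [le_div_iff₀ h0]
      nlinarith
    linarith

theorem main (d : ℤ) (hd : Odd d) (hd3 : IsCoprime d 3) : S_CDT d := by
  intro v m J hm hJ k hk
  have hmo : Odd (m : ℤ) := by
    rw [Int.odd_iff]
    omega
  have hd0 : d ≠ 0 := by
    rintro rfl
    exact absurd hd (by decide)
  have hd1 : (1 : ℤ) ≤ |d| := Int.one_le_abs hd0
  -- the odd terms
  have hX : ∀ i < J, |d| * J ≤ (Sy d)^[i] (m : ℤ) ∧ |d| ≤ (Sy d)^[i] (m : ℤ) := by
    intro i hi
    have h1 := hJ i hi
    have h2 : (1 : ℤ) ≤ J := by exact_mod_cast (show 1 ≤ J by omega)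
    exact ⟨h1, by nlinarith⟩
  have hm0' : 0 < m := by omega
  have hXpos : ∀ j ≤ J, 0 < (Sy d)^[j] (m : ℤ) := by
    intro j hj
    rcases Nat.eq_zero_or_pos j with h0 | h0
    · subst h0
      simpa using hm0'
    · obtain ⟨i, rfl⟩ : ∃ i, j = i + 1 := ⟨j - 1, by omega⟩
      rw [Function.iterate_succ_apply']
      obtain ⟨_, _, h3⟩ := Sy_spec hd hd3 (odd_iter hd hd3 hmo i)
      have h4 := (hX i (by omega)).2
      have h5 : 0 < 3 * (Sy d)^[i] (m : ℤ) + d := by
        have := neg_abs_le d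
        linarith
      rw [h3] at h5
      exact (mul_pos_iff_of_pos_left (by positivity)).1 h5
  have hlog2u : Real.log 2 ≤ 7 / 10 := by
    have := Real.log_two_lt_d9
    linarith
  have h43 : Real.log (4 / 3) ≤ 1 / 3 := UL.log43_hi
  have h43' : (1 / 4 : ℝ) ≤ Real.log (4 / 3) := UL.log43_lo
  have hlog2'' : (1 / 2 : ℝ) ≤ Real.log 2 := by
    have := Real.log_two_gt_d9
    linarith
  have heq := UL.log43_eq
  have hlog3 : 0 < Real.log 3 := Real.log_pos (by norm_num)
  -- the correction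
  have hEs : ∀ j < J, |E d m (j + 1) - E d m j| ≤ 1 / (2 * (J : ℝ)) := by
    intro j hj
    obtain ⟨_, _, h3⟩ := Sy_spec hd hd3 (odd_iter hd hd3 hmo j)
    have hx := hXpos j hj.le
    have hx' := hXpos (j + 1) hj
    have hxR : (0 : ℝ) < (((Sy d)^[j] (m : ℤ) : ℤ) : ℝ) := by exact_mod_cast hx
    have hxR' : (0 : ℝ) < (((Sy d)^[j + 1] (m : ℤ) : ℤ) : ℝ) := by exact_mod_cast hx'
    have hJR : (0 : ℝ) < J := by exact_mod_cast (show 0 < J by omega)
    set x : ℝ := (((Sy d)^[j] (m : ℤ) : ℤ) : ℝ) with hxdef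
    have h4 : 3 * x + d = 2 ^ wt d m j * (((Sy d)^[j + 1] (m : ℤ) : ℤ) : ℝ) := by
      rw [Function.iterate_succ_apply']
      have := congrArg (fun z : ℤ => (z : ℝ)) h3
      push_cast at this
      exact this
    have h5 : |(d : ℝ)| * J ≤ x := by
      have := (hX j hj).1
      have h6 : ((|d| * J : ℤ) : ℝ) ≤ (((Sy d)^[j] (m : ℤ) : ℤ) : ℝ) := Int.cast_le.2 this
      push_cast at h6
      exact h6
    have hdR : (1 : ℝ) ≤ |(d : ℝ)| := by
      have h6 : ((1 : ℤ) : ℝ) ≤ ((|d| : ℤ) : ℝ) := by exact_mod_cast hd1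
      push_cast at h6
      exact h6
    have h7 : E d m (j + 1) - E d m j = Real.log (1 + d / (3 * x)) := by
      have e1 : Real.log (3 * x + d) = wt d m j * Real.log 2 +
          Real.log (((Sy d)^[j + 1] (m : ℤ) : ℤ) : ℝ) := by
        rw [h4, Real.log_mul (by positivity) hxR'.ne', Real.log_pow]
      have h3x : 0 < 3 * x + d := by
        rw [h4]
        positivity
      have e2 : Real.log (3 * x + d) = Real.log 3 + Real.log x + Real.log (1 + d / (3 * x)) := by
        have e3 : 3 * x + d = 3 * x * (1 + d / (3 * x)) := by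
          field_simp
        have e4 : 0 < 1 + d / (3 * x) := by
          have e5 : 1 + d / (3 * x) = (3 * x + d) / (3 * x) := by
            field_simp
          rw [e5]
          positivity
        rw [e3, Real.log_mul (by positivity) e4.ne', Real.log_mul (by norm_num) hxR.ne']
      unfold E
      rw [Sg_succ]
      push_cast
      rw [← hxdef]
      linarith
    have h8 : |(d : ℝ) / (3 * x)| ≤ 1 / (3 * J) := by
      rw [abs_div, abs_of_pos (by positivity : (0 : ℝ) < 3 * x), div_le_div_iff₀ (by positivity) (by positivity)]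
      nlinarith
    have h9 : 1 / (3 * (J : ℝ)) ≤ 1 / 3 := by
      have : (1 : ℝ) ≤ J := by exact_mod_cast (show 1 ≤ J by omega)
      apply div_le_div_of_nonneg_left (by norm_num) (by norm_num)
      linarith
    rw [h7]
    calc |Real.log (1 + d / (3 * x))| ≤ 3 / 2 * |(d : ℝ) / (3 * x)| :=
          log_small (by have := neg_abs_le ((d : ℝ) / (3 * x)); linarith)
      _ ≤ 3 / 2 * (1 / (3 * J)) := by linarith
      _ = 1 / (2 * (J : ℝ)) := by
        field_simp
        try norm_num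
  have hE0 : E d m 0 = 0 := by simp [E, Sg]
  have hEj : ∀ j ≤ J, |E d m j| ≤ j * (1 / (2 * (J : ℝ))) := by
    intro j
    induction j with
    | zero => intro _; rw [hE0]; simp
    | succ j ih =>
      intro hj
      have h1 := hEs j hj
      have h2 := ih (by omega)
      have h3 : |E d m (j + 1)| ≤ |E d m (j + 1) - E d m j| + |E d m j| := by
        have := abs_add_le (E d m (j + 1) - E d m j) (E d m j)
        rwa [sub_add_cancel] at this
      push_cast
      linarith
  have hE : ∀ j ≤ J, -1 ≤ E d m j ∧ E d m j ≤ 1 := by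
    intro j hj
    rw [← abs_le]
    refine (hEj j hj).trans ?_
    rcases Nat.eq_zero_or_pos J with h0 | h0
    · subst h0
      simp
    · have hJR : (0 : ℝ) < J := by exact_mod_cast h0
      have h1 : (j : ℝ) ≤ J := by exact_mod_cast hj
      calc (j : ℝ) * (1 / (2 * (J : ℝ))) ≤ J * (1 / (2 * (J : ℝ))) :=
            mul_le_mul_of_nonneg_right h1 (by positivity)
        _ = 1 / 2 := by field_simp
        _ ≤ 1 := by norm_num
  set c3 := Real.log 3 / 2 with hc3
  have hc0 : 0 ≤ c3 := by linarith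
  have hc1 : c3 ≤ 1 := by linarith
  have hv : (0 : ℝ) ≤ v := Nat.cast_nonneg v
  have hvc : v * c3 ≤ v := by nlinarith
  have hvc0 : 0 ≤ v * c3 := by positivity
  have hm0 : (0 : ℝ) < m := by exact_mod_cast hm0'
  have hlogn : Real.log ((2 ^ v * m : ℕ) : ℝ) = v * Real.log 2 + Real.log m := by
    push_cast
    rw [Real.log_mul (by positivity) hm0.ne', Real.log_pow]
  have hcast : ((2 ^ v * m : ℕ) : ℤ) = 2 ^ v * (m : ℤ) := by push_cast; rfl
  have htime : ∀ j, ((v + Sg d m j : ℕ) : ℝ) - 2 * j = v - ((Yg d m j : ℤ) : ℝ) := by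
    intro j
    unfold Yg
    push_cast
    ring
  have hdev : ∀ j ≤ J, devG d (2 ^ v * m) (v + Sg d m j) = c3 * (Yg d m j : ℤ) + E d m j - v * c3 := by
    intro j hj
    have hxR : (0 : ℝ) < (((Sy d)^[j] (m : ℤ) : ℤ) : ℝ) := by exact_mod_cast hXpos j hj
    unfold devG E Yg
    rw [hcast, T_tt hd hd3 hmo, hlogn, heq, hc3, abs_of_pos hxR]
    push_cast
    ring
  have hcase0 : ∀ j ≤ J, |devG d (2 ^ v * m) (v + Sg d m j) - c3 * (Yg d m j : ℤ)| ≤
      |((Yg d m (j + 1) - Yg d m j : ℤ) : ℝ)| + (v + 10) ∧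
      |((v + Sg d m j : ℕ) : ℝ) - 2 * j| ≤ v + 3 + |((Yg d m j : ℤ) : ℝ)| + |((Yg d m (j + 1) : ℤ) : ℝ)| := by
    intro j hj
    obtain ⟨h5, h6⟩ := hE j hj
    have a1 := abs_nonneg ((Yg d m (j + 1) - Yg d m j : ℤ) : ℝ)
    have a2 := abs_nonneg ((Yg d m (j + 1) : ℤ) : ℝ)
    constructor
    · rw [hdev j hj, abs_le]
      constructor <;> linarith
    · rw [htime, abs_le]
      have b1 := le_abs_self ((Yg d m j : ℤ) : ℝ)
      have b2 := neg_abs_le ((Yg d m j : ℤ) : ℝ)
      constructor <;> linarith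
  rcases hk.lt_or_eq with hk | hk
  · rcases pos d v m J k hk with h3 | ⟨j, hj, s, hs, rfl⟩
    · refine ⟨0, Nat.zero_le J, ?_, ?_⟩
      · have hY : Yg d m 0 = 0 := by simp [Yg, Sg]
        have hd' : devG d (2 ^ v * m) k = -(k * c3) := by
          unfold devG
          have hx : (((2 : ℤ) ^ (v - k) * (m : ℤ) : ℤ) : ℝ) = 2 ^ (v - k) * (m : ℝ) := by push_cast; rfl
          rw [hcast, T_two d m v k h3.le, hlogn, hx, abs_of_pos (by positivity),
            Real.log_mul (by positivity) hm0.ne', Real.log_pow, Nat.cast_sub h3.le, heq, hc3]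
          ring
        rw [hd', hY]
        have a1 := abs_nonneg ((Yg d m (0 + 1) - 0 : ℤ) : ℝ)
        have hkv : (k : ℝ) ≤ v := by exact_mod_cast h3.le
        have hk0 : (0 : ℝ) ≤ k := Nat.cast_nonneg k
        have b1 : 0 ≤ k * c3 := by positivity
        have b2 : k * c3 ≤ v := by nlinarith
        rw [Int.cast_zero, mul_zero, sub_zero, abs_le]
        constructor <;> linarith
      · have a1 := abs_nonneg ((Yg d m 0 : ℤ) : ℝ)
        have a2 := abs_nonneg ((Yg d m (0 + 1) : ℤ) : ℝ)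
        have hkv : (k : ℝ) ≤ v := by exact_mod_cast h3.le
        have hk0 : (0 : ℝ) ≤ k := Nat.cast_nonneg k
        rw [Nat.cast_zero, mul_zero, sub_zero, abs_of_nonneg hk0]
        linarith
    · refine ⟨j, hj.le, ?_⟩
      rcases Nat.eq_zero_or_pos s with h0 | h0
      · subst h0
        rw [add_zero]
        exact hcase0 j hj.le
      · obtain ⟨h5, h6⟩ := hE j hj.le
        have hwY : ((wt d m j : ℕ) : ℝ) = 2 - ((Yg d m (j + 1) - Yg d m j : ℤ) : ℝ) := by
          unfold Yg
          rw [Sg_succ]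
          push_cast
          ring
        have hsw : (s : ℝ) ≤ ((wt d m j : ℕ) : ℝ) := by exact_mod_cast hs
        have hs1 : (1 : ℝ) ≤ s := by exact_mod_cast h0
        constructor
        · have hx : 0 < (Sy d)^[j] (m : ℤ) := hXpos j hj.le
          have hxR : (0 : ℝ) < (((Sy d)^[j] (m : ℤ) : ℤ) : ℝ) := by exact_mod_cast hx
          have hxd : |(d : ℝ)| ≤ (((Sy d)^[j] (m : ℤ) : ℤ) : ℝ) := by
            have h7 : ((|d| : ℤ) : ℝ) ≤ (((Sy d)^[j] (m : ℤ) : ℤ) : ℝ) := by exact_mod_cast (hX j hj).2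
            push_cast at h7
            exact h7
          have hdl := neg_abs_le (d : ℝ)
          have hdu := le_abs_self (d : ℝ)
          obtain ⟨_, _, h3⟩ := Sy_spec hd hd3 (odd_iter hd hd3 hmo j)
          have h4 : (2 : ℤ) ^ wt d m j ∣ 3 * (Sy d)^[j] (m : ℤ) + d := by
            rw [h3]
            exact Dvd.intro _ rfl
          have hdv : (2 : ℤ) ^ s ∣ 3 * (Sy d)^[j] (m : ℤ) + d := (pow_dvd_pow 2 hs).trans h4
          have h4' : (((3 * (Sy d)^[j] (m : ℤ) + d) / 2 ^ s : ℤ) : ℝ) =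
              (3 * (((Sy d)^[j] (m : ℤ) : ℤ) : ℝ) + d) / 2 ^ s := by
            rw [Int.cast_div hdv (by positivity)]
            push_cast
            rfl
          have h3x : 0 < 3 * (((Sy d)^[j] (m : ℤ) : ℤ) : ℝ) + d := by linarith
          have h5' : Real.log (3 * (((Sy d)^[j] (m : ℤ) : ℤ) : ℝ) + d) ≤
              2 * Real.log 2 + Real.log (((Sy d)^[j] (m : ℤ) : ℤ) : ℝ) := by
            have h6 : Real.log (3 * (((Sy d)^[j] (m : ℤ) : ℤ) : ℝ) + d) ≤
                Real.log (2 ^ 2 * (((Sy d)^[j] (m : ℤ) : ℤ) : ℝ)) :=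
              Real.log_le_log h3x (by linarith)
            rw [Real.log_mul (by norm_num) hxR.ne', Real.log_pow] at h6
            push_cast at h6
            exact h6
          have h5'' : Real.log (((Sy d)^[j] (m : ℤ) : ℤ) : ℝ) ≤
              Real.log (3 * (((Sy d)^[j] (m : ℤ) : ℤ) : ℝ) + d) :=
            Real.log_le_log hxR (by linarith)
          have hd2 : devG d (2 ^ v * m) (v + Sg d m j + s) = c3 * (Yg d m j : ℤ) + E d m j - v * c3 +
              (Real.log (3 * (((Sy d)^[j] (m : ℤ) : ℤ) : ℝ) + d) -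
                Real.log (((Sy d)^[j] (m : ℤ) : ℤ) : ℝ)) - s * c3 := by
            rw [← hdev j hj.le]
            unfold devG
            rw [hcast, T_mid hd hd3 hmo v j s h0 hs, T_tt hd hd3 hmo, h4',
              abs_of_pos (by positivity), abs_of_pos hxR, Real.log_div h3x.ne' (by positivity),
              Real.log_pow, heq, hc3]
            push_cast
            ring
          rw [hd2]
          have hsc : s * c3 ≤ s := by nlinarith
          have hsc0 : 0 ≤ s * c3 := by positivity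
          have b1 := neg_abs_le ((Yg d m (j + 1) - Yg d m j : ℤ) : ℝ)
          have b2 := abs_nonneg ((Yg d m (j + 1) - Yg d m j : ℤ) : ℝ)
          rw [abs_le]
          constructor <;> linarith
        · have h7 := htime j
          have h8 : ((v + Sg d m j + s : ℕ) : ℝ) - 2 * j = v - ((Yg d m j : ℤ) : ℝ) + s := by
            push_cast at h7 ⊢
            linarith
          rw [h8, abs_le]
          rw [Int.cast_sub] at hwY
          have b1 := le_abs_self ((Yg d m j : ℤ) : ℝ)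
          have b2 := neg_abs_le ((Yg d m (j + 1) : ℤ) : ℝ)
          have b3 := abs_nonneg ((Yg d m j : ℤ) : ℝ)
          have b4 := abs_nonneg ((Yg d m (j + 1) : ℤ) : ℝ)
          constructor <;> linarith
  · exact ⟨J, le_rfl, by rw [hk]; exact hcase0 J le_rfl⟩

end Pool.Agent.H55.BG.CDT
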