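import Pool.Agent.H55.BG.DETT

/-!
# Project BG: the trajectory is close to the step function of the block sums, numerical part
-/

set_option autoImplicit false

namespace Pool.Agent.H55.BG.DETT

open Finset Filter Topology MeasureTheory ProbabilityTheory
open Pool.Agent.TH977.IP (Sy ex Sy_spec)
open Pool.Agent.Results.MP_f7abf1_nt.BlockLaw (oddCount HasDensity)
open Pool.Agent.H55.UL (slow log_tendsto sqrt_diff log43_lo log43_hi log2_hi log43_eq)
open Pool.Agent.H55.DK (stp)
open Pool.Agent.H55.DK.DET (bt stp_eq scaled)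

theorem main (d : ℤ) (hd : Odd d) (hd3 : IsCoprime d 3) (hD : S_CDT d) : S_DETT d := by
  intro η hη
  set e : ℝ := η / 40 with he
  have he0 : 0 < e := by positivity
  refine ⟨e, he0, ?_⟩
  intro κ hκ hκ1 g h v hg hh θ hθ
  have hg4 : (4 : ℝ) < g := by
    have h1 : (4 : ℝ) < 4 / κ := by
      rw [lt_div_iff₀ hκ]
      linarith only [hκ1]
    linarith only [h1, hg]
  have hg1 : 4 < g := by exact_mod_cast hg4
  have hgR : (0 : ℝ) < g := by linarith only [hg4]
  set G : ℕ := g * h with hG
  set r : ℕ := (g - 1) * h with hr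
  have hG0 : 0 < G := Nat.mul_pos (by omega) hh
  have hr0 : 0 < r := Nat.mul_pos (by omega) hh
  have hGR : (0 : ℝ) < G := by exact_mod_cast hG0
  have hhR : (0 : ℝ) < h := by exact_mod_cast hh
  have hGgh : (G : ℝ) = g * h := by rw [hG]; push_cast; ring
  have hrgh : (r : ℝ) = (g - 1) * h := by
    rw [hr]
    push_cast
    rw [Nat.cast_sub (by omega)]
    push_cast
    ring
  have hrG' : (r : ℝ) / G = 1 - 1 / g := by
    rw [hrgh, hGgh]
    field_simp
  set c1 : ℝ := ((r : ℝ) + 1) * e with hc1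
  have hc10 : 0 ≤ c1 := by positivity
  set D0 : ℝ := v + |Real.log θ| + |(d : ℝ)| with hD0
  have hD00 : 0 ≤ D0 := by positivity
  set D : ℝ := 2 * G + 8 * D0 with hDd
  have hD0' : 0 ≤ D := by positivity
  set A : ℝ := 100 * (v + 20 + D0 + G + c1 + e) + 100 * (D + 1) * (c1 + 1) with hA
  have hA0 : 0 ≤ A := by positivity
  have s1 := log_tendsto.eventually (slow A (show (0 : ℝ) < min (η / 8) (1 / G) by positivity))
  have s2 := log_tendsto.eventually (slow (2 * c1 + 3) (show (0 : ℝ) < 1 by norm_num))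
  have s3 := log_tendsto.eventually (slow (2 * D + 1) (show (0 : ℝ) < 1 by norm_num))
  filter_upwards [s1, s2, s3, log_tendsto.eventually_ge_atTop (max 1 (2 * G))]
    with X hs1 hs2 hs3 hL b hb m hmX hmθ hm hctl s hs0 hs1'
  set L := Real.log X with hLd
  have hL1 : 1 ≤ L := (le_max_left _ _).trans hL
  have hL2 : 2 * (G : ℝ) ≤ L := (le_max_right _ _).trans hL
  have hL0 : 0 < L := by linarith only [hL1]
  have hqlo := log43_lo
  have hqhi := log43_hi
  set q := Real.log (4 / 3) with hq
  have hqpos : 0 < q := by linarith only [hqlo]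
  set w : ℝ := e * Real.sqrt L with hw
  have hsL : 1 ≤ Real.sqrt L := by rw [Real.one_le_sqrt]; exact hL1
  have hsL2 : Real.sqrt L * Real.sqrt L = L := Real.mul_self_sqrt hL0.le
  have hw0 : 0 ≤ w := by positivity
  have hlogL : 0 ≤ Real.log L := Real.log_nonneg hL1
  obtain ⟨_, t1, t2⟩ := hs1
  obtain ⟨_, t3, t4⟩ := hs2
  obtain ⟨_, t5, t6⟩ := hs3
  -- `b`
  have hLq0 : L * q ≤ L * (1 / 3) := mul_le_mul_of_nonneg_left hqhi hL0.le
  have hLq : 3 * L ≤ L / q := by
    rw [le_div_iff₀ hqpos]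
    linarith only [hLq0]
  have hLq4 : L / q ≤ 4 * L := by
    rw [div_le_iff₀ hqpos]
    have h0 := mul_le_mul_of_nonneg_left hqlo hL0.le
    linarith only [h0]
  have hbx : (b : ℝ) ≤ L / q / G ∧ L / q / G < b + 1 := by
    have h0 : 0 ≤ L / q / G := by positivity
    rw [hb]
    exact ⟨Nat.floor_le h0, Nat.lt_floor_add_one _⟩
  have hb1 : (G : ℝ) * b ≤ L / q := by
    have := hbx.1
    rw [le_div_iff₀ hGR] at this
    linarith only [this]
  have hb2 : L / q ≤ G * b + G := by
    have := hbx.2.le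
    rw [div_le_iff₀ hGR] at this
    linarith only [this]
  have hbG : |L / q - G * b| ≤ G := by
    rw [abs_le]
    constructor
    · linarith only [hb1, hGR]
    · linarith only [hb2]
  have hbL : L ≤ G * b := by linarith only [hb2, hLq, hL2, hL0]
  have hb0 : 0 < b := by
    rcases Nat.eq_zero_or_pos b with h0 | h0
    · rw [h0] at hbL
      simp at hbL
      linarith only [hbL, hL0]
    · exact h0
  have hbR : (0 : ℝ) < b := by exact_mod_cast hb0
  have hbLG : L / G ≤ b := by
    rw [div_le_iff₀ hGR]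
    linarith only [hbL]
  have hm1 : 1 ≤ m := by omega
  have hrG : (r : ℝ) ≤ G := by
    have : r ≤ G := Nat.mul_le_mul_right h (Nat.sub_le g 1)
    exact_mod_cast this
  have hrw : ((r : ℝ) + 1) * w = c1 * Real.sqrt L := by rw [hc1, hw]; ring
  have hv0 : (0 : ℝ) ≤ v := Nat.cast_nonneg v
  set E : ℝ := v + 10 with hEd
  have hE0 : 0 ≤ E := by positivity
  -- `log n`
  have hX0 : (0 : ℝ) < X := by
    rcases (Nat.cast_nonneg X : (0 : ℝ) ≤ X).eq_or_lt with h0 | h0
    · exfalso
      rw [← h0] at hLd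
      rw [Real.log_zero] at hLd
      linarith only [hLd, hL0]
    · exact h0
  have hmR : (0 : ℝ) < m := by exact_mod_cast hm1
  have hmX' : Real.log m ≤ L := by
    apply Real.log_le_log hmR
    exact_mod_cast hmX
  have hlogn : Real.log ((2 ^ v * m : ℕ) : ℝ) = v * Real.log 2 + Real.log m := by
    push_cast
    rw [Real.log_mul (by positivity) hmR.ne', Real.log_pow]
  have h2l := log2_hi
  have h2pos : 0 < Real.log 2 := Real.log_pos (by norm_num)
  have hlogm0 : 0 ≤ Real.log m := Real.log_natCast_nonneg m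
  have hmL : L - |Real.log θ| ≤ Real.log m := by
    have h1 := Real.log_le_log (by positivity) hmθ
    rw [Real.log_mul hθ.ne' hX0.ne'] at h1
    have := neg_abs_le (Real.log θ)
    linarith only [this, h1]
  have hlnL : |Real.log ((2 ^ v * m : ℕ) : ℝ) - L| ≤ D0 := by
    rw [hlogn]
    have q1 : (v : ℝ) * Real.log 2 ≤ v * 1 := mul_le_mul_of_nonneg_left h2l hv0
    have q2 : 0 ≤ (v : ℝ) * Real.log 2 := by positivity
    have q3 := abs_nonneg (Real.log θ)
    have q4 := abs_nonneg (d : ℝ)
    rw [abs_le, hD0]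
    constructor
    · linarith only [q1, q2, q3, q4, hmL, hv0]
    · linarith only [q1, q2, q3, q4, hmX', hv0]
  have hln0 : 0 ≤ Real.log ((2 ^ v * m : ℕ) : ℝ) := by rw [hlogn]; positivity
  set ln := Real.log ((2 ^ v * m : ℕ) : ℝ) with hln
  set Sq : ℝ := Real.sqrt (2 * L / q) with hSq
  have hSqL : 2 * Real.sqrt L ≤ Sq := by
    have h1 : 2 * Real.sqrt L = Real.sqrt (4 * L) := by
      rw [Real.sqrt_mul (by norm_num)]
      have : Real.sqrt 4 = 2 := by
        rw [show (4 : ℝ) = 2 ^ 2 by norm_num]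
        exact Real.sqrt_sq (by norm_num)
      rw [this]
    rw [h1]
    apply Real.sqrt_le_sqrt
    rw [le_div_iff₀ hqpos]
    linarith only [hLq0, hL0]
  have h1L : 1 ≤ 2 * L / q := by
    rw [le_div_iff₀ hqpos]
    linarith only [hqhi, hL1]
  have hrd : |Real.sqrt (2 * ln / q) - Sq| ≤ 8 * D0 := by
    refine (sqrt_diff (by positivity) h1L).trans ?_
    have h2 : 2 * ln / q - 2 * L / q = (2 / q) * (ln - L) := by ring
    rw [h2, abs_mul, abs_of_pos (by positivity)]
    apply mul_le_mul _ hlnL (abs_nonneg _) (by norm_num)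
    rw [div_le_iff₀ hqpos]
    linarith only [hqlo]
  set σ : ℝ := Real.sqrt (2 * ln / q) with hσ
  set τ : ℝ := Real.sqrt (2 * (G : ℕ) * b) with hτ
  have hτSq : |τ - Sq| ≤ 2 * G := by
    refine (sqrt_diff (by positivity) h1L).trans ?_
    have h2 : 2 * (G : ℝ) * b - 2 * L / q = -(2 * (L / q - G * b)) := by ring
    rw [h2, abs_neg, abs_mul, abs_two]
    linarith only [hbG]
  have hτσ : |τ - σ| ≤ D := by
    have h2 : τ - σ = (τ - Sq) + (Sq - σ) := by ring
    rw [h2]
    rw [abs_sub_comm] at hrd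
    refine (abs_add_le _ _).trans ?_
    rw [hDd]
    linarith only [hτSq, hrd]
  have hσlo : Real.sqrt L ≤ σ := by
    have h2 := (abs_le.1 hrd).1
    have h3 : 8 * D0 ≤ Real.sqrt L := by
      have h4 : 8 * D0 ≤ (2 * D + 1) * (1 + Real.log L) := by
        have : 0 ≤ (2 * D + 1) * Real.log L := by positivity
        have h5 : 8 * D0 ≤ D := by rw [hDd]; linarith only [hGR]
        linarith only [this, h5, hD0']
      linarith only [h4, t5]
    linarith only [h2, h3, hSqL]
  have hτlo : Real.sqrt L ≤ τ := by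
    have h2 := (abs_le.1 hτSq).1
    have h3 : 2 * (G : ℝ) ≤ Real.sqrt L := by
      have h4 : 2 * (G : ℝ) ≤ (2 * D + 1) * (1 + Real.log L) := by
        have : 0 ≤ (2 * D + 1) * Real.log L := by positivity
        have h5 : 2 * (G : ℝ) ≤ D := by rw [hDd]; linarith only [hD00]
        linarith only [this, h5, hD0']
      linarith only [h4, t5]
    linarith only [h2, h3, hSqL]
  have hσ0 : 0 < σ := by linarith only [hσlo, hsL]
  have hτ0 : 0 < τ := by linarith only [hτlo, hsL]
  -- large `b`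
  set M : ℝ := c1 * Real.sqrt L with hM
  have hM0 : 0 ≤ M := by positivity
  have k2 : Real.log L ≤ Real.sqrt L := by
    have h1 := Real.log_le_sub_one_of_pos (show 0 < Real.sqrt L by linarith only [hsL])
    rw [Real.log_sqrt hL0.le] at h1
    have h2 : (2 * c1 + 3) * (1 + Real.log L) ≤ 1 * Real.sqrt L := t3
    have h3 : 0 ≤ 2 * c1 * (1 + Real.log L) := by positivity
    have h4 : (2 * c1 + 3) * (1 + Real.log L) = 2 * c1 * (1 + Real.log L) + 3 + 3 * Real.log L := by ring
    linarith only [h2, h3, h4, hlogL]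
  have k4 : A * Real.sqrt L ≤ 1 / G * L := t2.trans (by gcongr; exact min_le_right _ _)
  have hAbig : (50 * (v + 20 + D0 + G + e) + 50 * M + 50 * Real.log L : ℝ) ≤ A * Real.sqrt L := by
    have e1 : A * Real.sqrt L = 100 * (v + 20 + D0 + G + e) * Real.sqrt L + 100 * c1 * Real.sqrt L +
        100 * (D * (c1 + 1)) * Real.sqrt L + 100 * c1 * Real.sqrt L + 100 * Real.sqrt L := by
      rw [hA]; ring
    have e2 : 100 * (v + 20 + D0 + G + e) * 1 ≤ 100 * (v + 20 + D0 + G + e) * Real.sqrt L :=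
      mul_le_mul_of_nonneg_left hsL (by positivity)
    have e3 : 0 ≤ 100 * (D * (c1 + 1)) * Real.sqrt L := by positivity
    have e4 : 100 * c1 * Real.sqrt L = 100 * M := by rw [hM]; ring
    have e5 : 0 ≤ 100 * (v + 20 + D0 + G + e) := by positivity
    rw [e1, e4]
    linarith only [e2, e3, e5, k2, hM0, hsL]
  have hsum : (v + 3 + 2 * M) / 2 + 1 / 2 + 4 * D0 + G ≤ b := by
    have k5 : 1 / (G : ℝ) * L = L / G := by ring
    have k6 : 0 ≤ e := he0.le
    linarith only [hAbig, k4, k5, hbLG, hv0, hD00, hGR, hM0, hlogL, k6]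
  -- the end
  have hrb1 : (r : ℝ) * b * q ≤ (1 - 1 / g) * L := by
    have h1 : (r : ℝ) * b = (r / G) * (G * b) := by field_simp
    have h2 : 0 ≤ (r : ℝ) / G := by positivity
    have h3 : (r : ℝ) * b ≤ (r / G) * (L / q) := by
      rw [h1]
      exact mul_le_mul_of_nonneg_left hb1 h2
    rw [hrG', ← mul_div_assoc, le_div_iff₀ hqpos] at h3
    exact h3
  have hrb2 : (1 - 1 / (g : ℝ)) * (L / q) - G ≤ r * b := by
    have h1 : (r : ℝ) * b = (r / G) * (G * b) := by field_simp
    have h2 : 0 ≤ (r : ℝ) / G := by positivity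
    have h2' : (r : ℝ) / G ≤ 1 := by
      rw [div_le_one hGR]
      exact hrG
    have h3 : (r : ℝ) / G * (L / q - G) ≤ r * b := by
      rw [h1]
      exact mul_le_mul_of_nonneg_left (by linarith only [hb2]) h2
    have h4 : (r : ℝ) / G * (L / q - G) = (1 - 1 / g) * (L / q) - r / G * G := by rw [hrG']; ring
    have h5 : (r : ℝ) / G * G = r := by field_simp
    rw [h4, h5] at h3
    linarith only [h3, hrG]
  have hgG : 1 / (G : ℝ) ≤ 1 / g := by
    apply one_div_le_one_div_of_le hgR
    rw [hGgh]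
    have h2 : (1 : ℝ) ≤ h := by exact_mod_cast hh
    have h3 := mul_le_mul_of_nonneg_left h2 hgR.le
    linarith only [h3]
  have hLg : 1 / (G : ℝ) * L ≤ 1 / g * L := mul_le_mul_of_nonneg_right hgG hL0.le
  have hκg : 4 / (g : ℝ) ≤ κ := by
    rw [div_le_iff₀ hgR]
    rw [div_le_iff₀ hκ] at hg
    linarith only [hg]
  have hend : s * (2 * ln / q) + M + 2 ≤ 2 * (r * b) := by
    have h1 : ln ≤ L + D0 := by
      have := (abs_le.1 hlnL).2
      linarith only [this]
    have h2 : s * (2 * ln / q) ≤ (1 - κ) * (2 * (L + D0) / q) := by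
      apply mul_le_mul hs1' _ (by positivity) (by linarith only [hκ1])
      gcongr
    have h3 : (1 - κ) * (2 * (L + D0) / q) = 2 * ((1 - κ) * (L / q)) + (1 - κ) * (2 * D0 / q) := by ring
    have h4 : (1 - κ) * (2 * D0 / q) ≤ 8 * D0 := by
      have h5 : 2 * D0 / q ≤ 8 * D0 := by
        rw [div_le_iff₀ hqpos]
        have h0 := mul_le_mul_of_nonneg_left hqlo hD00
        linarith only [h0]
      have h6 : 0 ≤ 2 * D0 / q := by positivity
      have h7 : (1 - κ) * (2 * D0 / q) ≤ 1 * (2 * D0 / q) := mul_le_mul_of_nonneg_right (by linarith only [hκ]) h6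
      linarith only [h5, h7]
    have h5 : (1 - κ) * (L / q) ≤ (1 - 4 / g) * (L / q) := by
      apply mul_le_mul_of_nonneg_right _ (by positivity)
      linarith only [hκg]
    have h6 : (1 - 4 / (g : ℝ)) * (L / q) = (1 - 1 / g) * (L / q) - 3 * (1 / g * (L / q)) := by ring
    have h7 : 1 / (g : ℝ) * L ≤ 1 / g * (L / q) := by
      apply mul_le_mul_of_nonneg_left _ (by positivity)
      linarith only [hLq, hL0]
    have k6 : 0 ≤ e := he0.le
    linarith only [h2, h3, h4, h5, h6, h7, hrb2, k4, hLg, hAbig, hv0, hD00, hGR, hM0, hlogL, k6]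
  -- the odd terms are large
  have hd1 : (1 : ℝ) ≤ |(d : ℝ)| := by
    have h0 : d ≠ 0 := by
      rintro rfl
      exact absurd hd (by decide)
    have h1 : 1 ≤ |d| := Int.one_le_abs h0
    exact_mod_cast h1
  have hlarge : ∀ i ≤ r * b, |(d : ℝ)| * (r * b) ≤ (((Sy d)^[i] (m : ℤ) : ℤ) : ℝ) := by
    intro i hi
    apply big hd hd3 hm hb0 hr0 hw0 hctl (le_of_eq hrw) _ i hi
    have h2 : (r : ℝ) * b ≤ 4 * L := by
      have h3 : (r : ℝ) * b ≤ G * b := mul_le_mul_of_nonneg_right hrG hbR.le
      linarith only [h3, hb1, hLq4]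
    have hrb0 : (0 : ℝ) < (r : ℝ) * b := by exact_mod_cast Nat.mul_pos hr0 hb0
    have h3 : Real.log (|(d : ℝ)| * ((r : ℝ) * b)) ≤ |(d : ℝ)| + (Real.log 4 + Real.log L) := by
      rw [Real.log_mul (by positivity) hrb0.ne']
      have h5 : Real.log |(d : ℝ)| ≤ |(d : ℝ)| := by
        have := Real.log_le_sub_one_of_pos (show 0 < |(d : ℝ)| by linarith only [hd1])
        linarith only [this]
      have h6 : Real.log ((r : ℝ) * b) ≤ Real.log 4 + Real.log L := by
        rw [← Real.log_mul (by norm_num) hL0.ne']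
        exact Real.log_le_log hrb0 h2
      linarith only [h5, h6]
    have h4 : Real.log 4 ≤ 2 := by
      have h8 : Real.log 4 = Real.log (2 ^ (2 : ℕ)) := by norm_num
      rw [h8, Real.log_pow]
      push_cast
      linarith only [h2l]
    have k6 : 0 ≤ e := he0.le
    have k7 : |Real.log θ| + |(d : ℝ)| ≤ D0 := by rw [hD0]; linarith only [hv0]
    have k8 := abs_nonneg (Real.log θ)
    linarith only [h3, h4, k7, k8, hmL, hrb1, hLg, k4, hAbig, hv0, hD00, hGR, hM0, hlogL, k6, hd1]
  have hdv := comp hD hm hb0 hr0 hw0 hctl (le_of_eq hrw) hlnL hbG hs0 (by linarith only [hs1', hκ]) hlarge hend hsum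
  rw [← hEd] at hdv
  unfold pathG
  rw [← hq, ← hln]
  -- the step function
  have hst : stp G (fun i : Fin r => ((Yg d m (((i : ℕ) + 1) * b) - Yg d m ((i : ℕ) * b) : ℤ) : ℝ) /
      Real.sqrt (2 * (G : ℕ) * b)) s = ((Yg d m (min ⌊s * G⌋₊ r * b) : ℤ) : ℝ) / τ := by
    have h1 := stp_eq r G (fun i => ((Yg d m (i * b) : ℤ) : ℝ) / τ) s hs0
    have h2 : (fun i : Fin r => ((Yg d m (((i : ℕ) + 1) * b) - Yg d m ((i : ℕ) * b) : ℤ) : ℝ) /
      Real.sqrt (2 * (G : ℕ) * b)) = (fun i : Fin r => ((Yg d m (((i : ℕ) + 1) * b) : ℤ) : ℝ) / τ -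
        ((Yg d m ((i : ℕ) * b) : ℤ) : ℝ) / τ) := by
      funext i
      rw [← hτ]
      push_cast
      ring
    rw [h2, h1, zero_mul, Yg_zero]
    simp
  rw [hst]
  have hYM := bound hb0 hw0 hctl (show min ⌊s * G⌋₊ r * b ≤ r * b from Nat.mul_le_mul_right b (min_le_right _ _))
  rw [hrw] at hYM
  have hc12 : (1 : ℝ) / 2 ≤ Real.log 3 / 2 := by
    have h1 : Real.log (Real.exp 1) ≤ Real.log 3 :=
      Real.log_le_log (Real.exp_pos 1) (by linarith only [Real.exp_one_lt_d9])
    rw [Real.log_exp] at h1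
    linarith only [h1]
  have hfin := scaled (dv := devG d (2 ^ v * m) ⌊s * (2 * ln / q)⌋₊) (η := η) hc12 hσ0 hτ0 hdv hYM hτσ ?_
  · unfold BZ.scaleT
    exact hfin
  · have e1 : 2 * (5 * w + E) / σ ≤ η / 2 := by
      rw [div_le_iff₀ hσ0]
      have h1 : 10 * w = η / 4 * Real.sqrt L := by rw [hw, he]; ring
      have h2 : 2 * E ≤ η / 8 * Real.sqrt L := by
        have h3 : 2 * E ≤ A * (1 + Real.log L) := by
          have h5 : (2 * v + 36 : ℝ) ≤ A := by
            rw [hA]
            have : 0 ≤ (D + 1) * (c1 + 1) := by positivity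
            linarith only [this, hv0, hD00, hGR, hc10, he0]
          have h6 : 0 ≤ A * Real.log L := by positivity
          linarith only [hEd, h5, h6, hv0]
        refine h3.trans (t1.trans ?_)
        gcongr
        exact min_le_left _ _
      have h3 : η / 2 * Real.sqrt L ≤ η / 2 * σ := by gcongr
      have h4 : 0 ≤ η / 8 * Real.sqrt L := by positivity
      linarith only [h1, h2, h3, h4]
    have e2 : M * D / (σ * τ) ≤ η / 2 := by
      rw [div_le_iff₀ (by positivity)]
      have h1 : M * D = c1 * D * Real.sqrt L := by rw [hM]; ring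
      have h2 : c1 * D ≤ η / 8 * Real.sqrt L := by
        have h3 : c1 * D ≤ A * (1 + Real.log L) := by
          have h5 : c1 * D ≤ A := by
            have e1 : A = c1 * D + (100 * (v + 20 + D0 + G + c1 + e) + 99 * (c1 * D) + 100 * (D + c1 + 1)) := by
              rw [hA]; ring
            have e2 : 0 ≤ 100 * (v + 20 + D0 + G + c1 + e) + 99 * (c1 * D) + 100 * (D + c1 + 1) := by positivity
            linarith only [e1, e2]
          have : 0 ≤ A * Real.log L := by positivity
          linarith only [h5, this]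
        refine h3.trans (t1.trans ?_)
        gcongr
        exact min_le_left _ _
      have h3 : Real.sqrt L * Real.sqrt L ≤ σ * τ := mul_le_mul hσlo hτlo (by positivity) hσ0.le
      calc M * D = c1 * D * Real.sqrt L := h1
        _ ≤ η / 8 * Real.sqrt L * Real.sqrt L := by gcongr
        _ = η / 8 * (Real.sqrt L * Real.sqrt L) := by ring
        _ ≤ η / 2 * (σ * τ) := by
          apply mul_le_mul (by linarith only [hη]) h3 (by positivity) (by positivity)
    linarith only [e1, e2]

end Pool.Agent.H55.BG.DETT
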