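import Pool.Agent.H55.BG.Stm
import Pool.Agent.H55.DK.TV

/-!
# BG-TVP: the block law for all `3x+d` maps, and from sets to functions
-/

set_option autoImplicit false

namespace Pool.Agent.H55.BG.TVP

open Pool.Agent.H320R2.PD Pool.Agent.H499R2.ND Pool.Agent.TH977.IP Finset Filter Topology MeasureTheory
  ProbabilityTheory
open Pool.Agent.H319R2.Lln (mu)

/-- the odd elements of an invariant set in a window -/
theorem odd_win {d : ℤ} {S : Set ℤ} (hS : Inv d S) {A : ℝ} (hA : 0 < A) :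
    ((cls S A (2 * A) 0 1 0).card : ℝ) = G S (2 * A) - 2 * G S A + G S (A / 2) := by
  classical
  have h1 := G_win S hA (by linarith : A ≤ 2 * A)
  have h2 := G_win S (by linarith : 0 < A / 2) (by linarith : A / 2 ≤ A)
  have hun : wc S A (2 * A) 1 0 = cls S A (2 * A) 0 1 0 ∪
      (wc S (A / 2) A 1 0).image (fun x => 2 * x) := by
    ext x
    rw [mem_union, mem_wc, mem_cls, mem_image]
    constructor
    · rintro ⟨h, hxS, hd⟩
      rcases Int.even_or_odd x with he | ho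
      · right
        obtain ⟨t, ht⟩ := he
        have hx2 : x = 2 * t := by omega
        refine ⟨t, ?_, hx2.symm⟩
        rw [mem_wc]
        subst hx2
        push_cast at h
        exact ⟨⟨by linarith [h.1], by linarith [h.2]⟩, (hS.two t).1 hxS, one_dvd _⟩
      · left
        exact ⟨h, ho, hxS, by simp⟩
    · rintro (⟨h, _, hxS, _⟩ | ⟨t, ht, rfl⟩)
      · exact ⟨h, hxS, one_dvd _⟩
      · rw [mem_wc] at ht
        push_cast
        exact ⟨⟨by linarith [ht.1.1], by linarith [ht.1.2]⟩, (hS.two t).2 ht.2.1, one_dvd _⟩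
  have hdisj : Disjoint (cls S A (2 * A) 0 1 0) ((wc S (A / 2) A 1 0).image (fun x => 2 * x)) := by
    rw [Finset.disjoint_left]
    intro x hx hx'
    rw [mem_cls] at hx
    rw [mem_image] at hx'
    obtain ⟨t, _, rfl⟩ := hx'
    have := hx.2.1
    rw [← Int.not_even_iff_odd] at this
    exact this (even_two_mul t)
  have hcard : ((wc S A (2 * A) 1 0).card : ℝ) =
      (cls S A (2 * A) 0 1 0).card + (wc S (A / 2) A 1 0).card := by
    rw [hun, card_union_of_disjoint hdisj, card_image_of_injective _ (fun x y h => by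
      have : 2 * x = 2 * y := h
      omega)]
    push_cast
    rfl
  linarith

theorem class_bd {d : ℤ} (hd : Odd d) (hd3 : IsCoprime d 3) {S : Set ℤ} (hS : Inv d S) {δ : ℝ}
    (hδ : Tendsto (fun X : ℝ => G S X / X) atTop (𝓝 δ)) {ε : ℝ} (hε : 0 < ε) :
    ∃ A0 : ℝ, 0 < A0 ∧ ∀ A : ℝ, A0 ≤ A → ∀ m : ℕ, (m : ℝ) ^ 2 ≤ Real.log A →
      PB S A m (δ + ε) := by
  obtain ⟨C, hC, hequi⟩ := equi_odd 1 (d := d) hd hd3
  have hlim : Tendsto (fun A : ℝ => (G S (2 * A) - 2 * G S A + G S (A / 2)) / A) atTop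
      (𝓝 (2 * δ - 2 * δ + δ / 2)) := by
    have t1 : Tendsto (fun A : ℝ => 2 * (G S (2 * A) / (2 * A))) atTop (𝓝 (2 * δ)) :=
      (hδ.comp (tendsto_id.const_mul_atTop (by norm_num : (0 : ℝ) < 2))).const_mul 2
    have t2 : Tendsto (fun A : ℝ => 2 * (G S A / A)) atTop (𝓝 (2 * δ)) := hδ.const_mul 2
    have t3 : Tendsto (fun A : ℝ => G S (A / 2) / (A / 2) / 2) atTop (𝓝 (δ / 2)) :=
      (hδ.comp (tendsto_id.atTop_div_const (by norm_num : (0 : ℝ) < 2))).div_const 2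
    refine ((t1.sub t2).add t3).congr' ?_
    filter_upwards [eventually_gt_atTop 0] with A hA
    field_simp
  have e1 : ∀ᶠ A : ℝ in atTop, (G S (2 * A) - 2 * G S A + G S (A / 2)) / A < δ / 2 + ε / 4 := by
    refine (tendsto_order.1 hlim).2 _ ?_
    linarith
  obtain ⟨A1, hA1⟩ := eventually_atTop.1 (e1.and
    (Real.tendsto_log_atTop.eventually_ge_atTop (max 1000 (2 * C / ε))))
  refine ⟨max A1 1, lt_of_lt_of_le zero_lt_one (le_max_right _ _), ?_⟩
  intro A hA m hm u v hu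
  have hA0 : 0 < A := lt_of_lt_of_le zero_lt_one ((le_max_right _ _).trans hA)
  obtain ⟨h1, h2⟩ := hA1 A ((le_max_left _ _).trans hA)
  have hlog : 1000 ≤ Real.log A := (le_max_left _ _).trans h2
  have hlog2 : 2 * C / ε ≤ Real.log A := (le_max_right _ _).trans h2
  obtain ⟨c, hc⟩ := cls_unit S A (2 * A) m hu v
  rw [hc]
  have hq := fun c' : ℤ => hequi S hS.fwd hS.compl.fwd A hA0 hlog m hm c c'
  have hsum : ∑ c' ∈ range (3 ^ m), ((cls S A (2 * A) m 1 c).card : ℝ) ≤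
      ∑ c' ∈ range (3 ^ m), (((cls S A (2 * A) m 1 (c' : ℤ)).card : ℝ) +
        C / (Real.log A) ^ 1 * (A / (2 * 3 ^ m))) := sum_le_sum fun c' _ => hq c'
  rw [sum_add_distrib, clI_sum, odd_win hS hA0, sum_const, sum_const, card_range, nsmul_eq_mul,
    nsmul_eq_mul] at hsum
  rw [div_lt_iff₀ hA0] at h1
  push_cast at hsum
  have hCl : C / Real.log A ≤ ε / 2 := by
    rw [div_le_div_iff₀ (by linarith) (by norm_num)]
    rw [div_le_iff₀ hε] at hlog2
    linarith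
  set x : ℝ := ((cls S A (2 * A) m 1 c).card : ℝ) with hx
  have h3 : (0 : ℝ) < 3 ^ m := by positivity
  have h4 : (3 : ℝ) ^ m * (C / Real.log A ^ 1 * (A / (2 * 3 ^ m))) = C / Real.log A * (A / 2) := by
    rw [pow_one]
    field_simp
  rw [h4] at hsum
  have h5 : (δ + ε) * (A / (2 * 3 ^ m)) = ((δ + ε) * (A / 2)) / 3 ^ m := by
    field_simp
  rw [h5, le_div_iff₀ h3]
  have h6 : C / Real.log A * (A / 2) ≤ ε / 2 * (A / 2) :=
    mul_le_mul_of_nonneg_right hCl (by linarith)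
  nlinarith

/-- the law of the block sums in an invariant set -/
theorem inv_law_d {d : ℤ} (hd : Odd d) (hd3 : IsCoprime d 3) {S : Set ℤ} (hS : Inv d S) {δ : ℝ}
    (hδ0 : 0 ≤ δ) (hδ1 : δ ≤ 1)
    (hδ : Tendsto (fun X : ℝ => G S X / X) atTop (𝓝 δ)) {κ : ℝ} (hκ : 0 < κ) (hκ1 : κ ≤ 1) {ε : ℝ}
    (hε : 0 < ε) : ∃ N0 : ℕ, ∀ N : ℕ, N0 ≤ N → ∀ bs : List ℕ, (∀ b ∈ bs, κ * Real.log N ≤ b) →
    ((bs.sum : ℕ) : ℝ) ≤ (1 - κ) * Real.log N / (2 * mu) →
    ∀ E : List ℕ → Prop, MeasurableSet {ω : ℕ → ℕ | E (stf bs fun j => ω j + 1)} →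
      |((cls (ZE d S bs E) 0 (N + 1) 0 1 0).card : ℝ) -
        δ / 2 * TJ.PP.real {ω : ℕ → ℕ | E (stf bs fun j => ω j + 1)} * N| ≤ ε * N := by
  set η : ℝ := min 1 (ε / 8) with hη
  have hη0 : 0 < η := lt_min one_pos (by positivity)
  have hη1 : η ≤ 1 := min_le_left _ _
  have hη8 : η ≤ ε / 8 := min_le_right _ _
  obtain ⟨N1, h1⟩ := law hκ hκ1 hη0
  obtain ⟨A0, hA0, hPB⟩ := class_bd hd hd3 hS hδ hη0
  obtain ⟨N2, h2⟩ := PB_all hκ hA0 hPB
  obtain ⟨N3, h3⟩ := odd_count hS hδ (show 0 < η / 2 by positivity)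
  refine ⟨max (max (max N1 N2) N3) (max 1 ⌈Real.exp (20 * Real.log (|(d : ℝ)| + 1) / κ)⌉₊),
    fun N hN bs hbs hsum E hE => ?_⟩
  have hNa : max (max N1 N2) N3 ≤ N := (le_max_left _ _).trans hN
  have hNb : max 1 ⌈Real.exp (20 * Real.log (|(d : ℝ)| + 1) / κ)⌉₊ ≤ N := (le_max_right _ _).trans hN
  have hNN1 : N1 ≤ N := ((le_max_left _ _).trans (le_max_left _ _)).trans hNa
  have hNN2 : N2 ≤ N := ((le_max_right _ _).trans (le_max_left _ _)).trans hNa
  have hNN3 : N3 ≤ N := (le_max_right _ _).trans hNa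
  have hdN : |(d : ℝ)| ≤ Real.exp (κ * Real.log N / 20) := by
    have g1 : (1 : ℝ) ≤ N := by exact_mod_cast (le_max_left _ _).trans hNb
    have g2 : Real.exp (20 * Real.log (|(d : ℝ)| + 1) / κ) ≤ N :=
      (Nat.le_ceil _).trans (by exact_mod_cast (le_max_right _ _).trans hNb)
    have g3 : 20 * Real.log (|(d : ℝ)| + 1) / κ ≤ Real.log N :=
      (Real.le_log_iff_exp_le (by linarith)).2 g2
    rw [div_le_iff₀ hκ] at g3
    have g4 : Real.log (|(d : ℝ)| + 1) ≤ κ * Real.log N / 20 := by linarith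
    have g5 : 0 < |(d : ℝ)| + 1 := by positivity
    have g6 : |(d : ℝ)| + 1 ≤ Real.exp (κ * Real.log N / 20) := (Real.log_le_iff_le_exp g5).1 g4
    linarith
  have hcount : ((δ + η + 0) / 2 - η) * N ≤
      ((cls (ZE d (S ∪ ∅) bs fun _ => True) 0 (N + 1) 0 1 0).card : ℝ) := by
    have h4 := h3 N hNN3
    have hsub : cls S 0 (N + 1) 0 1 0 ⊆ cls (ZE d (S ∪ ∅) bs fun _ => True) 0 (N + 1) 0 1 0 := by
      intro x hx
      rw [mem_cls] at hx ⊢
      refine ⟨hx.1, hx.2.1, ⟨Or.inl ?_, trivial⟩, hx.2.2.2⟩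
      exact (ZE_inv hd hd3 hS hx.2.1 _).2 hx.2.2.1
    have h5 : ((cls S 0 (N + 1) 0 1 0).card : ℝ) ≤
        ((cls (ZE d (S ∪ ∅) bs fun _ => True) 0 (N + 1) 0 1 0).card : ℝ) := by
      exact_mod_cast card_le_card hsub
    refine le_trans (le_of_eq ?_) (h4.trans h5)
    ring
  have h6 := h1 N hNN1 d hd hd3 hdN S ∅ (δ + η) 0 (by positivity) le_rfl
    (by linarith) (h2 N hNN2) (by
      intro A hA _ m _ u v _
      have : cls ∅ A (2 * A) m u v = ∅ := by
        ext x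
        rw [mem_cls]
        simp
      rw [this]
      simp) bs hbs hsum hcount E hE
  set μ : ℝ := TJ.PP.real {ω : ℕ → ℕ | E (stf bs fun j => ω j + 1)} with hμ
  have hμ0 : 0 ≤ μ := MeasureTheory.measureReal_nonneg
  have hμ1 : μ ≤ 1 := MeasureTheory.measureReal_le_one
  have hN0 : (0 : ℝ) ≤ N := Nat.cast_nonneg _
  have h7 : 0 ≤ η / 2 * μ * N := by positivity
  have h8 : η / 2 * μ * N ≤ η / 2 * N := by
    have : η / 2 * μ ≤ η / 2 * 1 := mul_le_mul_of_nonneg_left hμ1 (by positivity)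
    nlinarith
  have h9 : η * N ≤ ε / 8 * N := mul_le_mul_of_nonneg_right hη8 hN0
  have h10 := abs_le.1 h6
  rw [abs_le]
  constructor <;> nlinarith [h10.1, h10.2]

open Pool.Agent.Results.MP_f7abf1_nt.BlockLaw (blocks Admissible prob oddCount HasDensity EL EL_iff
  meas_blocks count_cls adm_of model_eq)

theorem ncard_nat (S : Set ℤ) (N : ℕ) :
    {n : ℤ | 0 < 1 * n ∧ 1 * n ≤ N ∧ n ∈ S}.ncard = {n : ℕ | 1 ≤ n ∧ n ≤ N ∧ (n : ℤ) ∈ S}.ncard := by
  have : {n : ℤ | 0 < 1 * n ∧ 1 * n ≤ N ∧ n ∈ S}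
      = (fun n : ℕ => (n : ℤ)) '' {n : ℕ | 1 ≤ n ∧ n ≤ N ∧ (n : ℤ) ∈ S} := by
    ext x
    rw [Set.mem_image]
    constructor
    · rintro ⟨h1, h2, h3⟩
      refine ⟨x.toNat, ⟨by omega, by omega, ?_⟩, by omega⟩
      rw [Int.toNat_of_nonneg (by omega)]
      exact h3
    · rintro ⟨n, ⟨h1, h2, h3⟩, rfl⟩
      exact ⟨by omega, by omega, h3⟩
  rw [this, Set.ncard_image_of_injective _ Nat.cast_injective]

/-- the block law for all `3x+d` maps -/
theorem block_law {d : ℤ} (hd : Odd d) (hd3 : IsCoprime d 3) {S : Set ℤ} (hS : Inv d S) {δ : ℝ}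
    (hδ : HasDensity (fun n : ℕ => (n : ℤ) ∈ S) δ) (κ ε : ℝ) (hκ : 0 < κ) (hε : 0 < ε) :
    ∃ X₀ : ℕ, ∀ X : ℕ, X₀ ≤ X → ∀ (r : ℕ) (K : ℕ → ℕ), Admissible κ X r K → ∀ E : Set (Fin r → ℕ),
      |oddCount X (fun n => (n : ℤ) ∈ S ∧ blocks K r (wt d n) ∈ E) - δ / 2 * prob K r E * X| ≤
        ε * X := by
  obtain ⟨l, h0, h1, hl⟩ := dens_side hd hd3 (Or.inl rfl) hS
  have h5 : l = δ := by
    have h4 : Tendsto (fun N : ℕ => ({n : ℕ | 1 ≤ n ∧ n ≤ N ∧ (n : ℤ) ∈ S}.ncard : ℝ) / N) atTop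
        (𝓝 l) := by
      refine (HD_ncard (Or.inl rfl) hl).congr fun N => ?_
      rw [ncard_nat]
    exact tendsto_nhds_unique h4 hδ
  rw [h5] at hl h0 h1
  have hG : Tendsto (fun X : ℝ => G S X / X) atTop (𝓝 δ) := by
    unfold HD at hl
    simpa only [one_mul, Set.ofPred_mem_eq] using hl
  have hprob : ∀ (K : ℕ → ℕ) (r : ℕ) (E : Set (Fin r → ℕ)), K 0 = 0 → (∀ i < r, K i ≤ K (i + 1)) →
      TJ.PP.real {ω : ℕ → ℕ | EL E (stf (List.ofFn fun i : Fin r => K (i + 1) - K i) fun j => ω j + 1)}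
        = prob K r E := by
    intro K r E h0 hK
    unfold prob
    rw [model_eq]
    congr 1
    ext ω
    exact EL_iff h0 hK E _
  have hmeas : ∀ (K : ℕ → ℕ) (r : ℕ) (E : Set (Fin r → ℕ)), K 0 = 0 → (∀ i < r, K i ≤ K (i + 1)) →
      MeasurableSet {ω : ℕ → ℕ |
        EL E (stf (List.ofFn fun i : Fin r => K (i + 1) - K i) fun j => ω j + 1)} := by
    intro K r E h0 hK
    have e : {ω : ℕ → ℕ | EL E (stf (List.ofFn fun i : Fin r => K (i + 1) - K i) fun j => ω j + 1)} =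
        {ω : ℕ → ℕ | blocks K r (fun j => ω j + 1) ∈ E} := by
      ext ω
      exact EL_iff h0 hK E _
    rw [e]
    exact meas_blocks K r E
  rcases le_or_gt κ 1 with hκ1 | hκ1
  · obtain ⟨N0, hN0⟩ := inv_law_d hd hd3 hS h0 h1 hG hκ hκ1 hε
    refine ⟨max N0 2, fun X hX r K hA E => ?_⟩
    obtain ⟨_, a2, a3, a4, a5⟩ := adm_of hκ ((le_max_right _ _).trans hX) hA
    have h := hN0 X ((le_max_left _ _).trans hX) (List.ofFn fun i : Fin r => K (i + 1) - K i) a3 a4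
      (EL E) (hmeas K r E hA.1 a2)
    rw [hprob K r E hA.1 a2] at h
    rw [count_cls (Z := ZE d S (List.ofFn fun i : Fin r => K (i + 1) - K i) (EL E))]
    · exact h
    · intro n hn
      have hn' : Odd (n : ℤ) := by exact_mod_cast hn
      have g1 : (Sy d)^[(List.ofFn fun i : Fin r => K (i + 1) - K i).sum] (n : ℤ) ∈ S ↔ (n : ℤ) ∈ S :=
        ZE_inv hd hd3 hS hn' _
      have g2 : EL E (stf (List.ofFn fun i : Fin r => K (i + 1) - K i)
          fun j => ex d ((Sy d)^[j] (n : ℤ))) ↔ blocks K r (wt d n) ∈ E :=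
        EL_iff hA.1 a2 E _
      exact and_congr g1 g2
  · refine ⟨2, fun X hX r K hA E => ?_⟩
    exact absurd (adm_of hκ hX hA).1 (not_le.2 hκ1)

open Pool.Agent.H55.DK (oddSum)
open Pool.Agent.H55.DK.TV (layer oddCount_eq oddSum_one_le)
open Pool.Agent.H499R2.ND.TJ (PP)

open Classical in
theorem main (d : ℤ) (hd : Odd d) (hd3 : IsCoprime d 3) : S_TVP d := by
  intro S hP δ' hδ κ ε hκ hε
  set P : ℕ → Prop := fun n : ℕ => (n : ℤ) ∈ S with hPdef
  obtain ⟨X₀, hX⟩ := block_law hd hd3 hP hδ κ (ε / 2) hκ (by positivity)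
  obtain ⟨N, hN⟩ := exists_nat_gt ((1 + |δ'| / 2) * 2 / ε)
  have hN0r : (0 : ℝ) < N := lt_of_le_of_lt (by positivity) hN
  have hN0 : 0 < N := by exact_mod_cast hN0r
  have hN' : (1 + |δ'| / 2) / N ≤ ε / 2 := by
    rw [div_le_iff₀ hN0r]
    rw [div_lt_iff₀ hε] at hN
    linarith
  filter_upwards [eventually_ge_atTop X₀] with X hX₀ r b h4 h5 Φ hΦ
  have hadm : Admissible κ X r (fun i => i * b) := by
    refine ⟨by simp, ?_, by simpa using h5⟩
    intro i _
    push_cast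
    linarith
  set K : ℕ → ℕ := fun i => i * b with hK
  set Ev : ℕ → Set (Fin r → ℕ) := fun i => {v | (i : ℝ) / N ≤ Φ v} with hEv
  have hi : ∀ i : ℕ, |oddCount X (fun n => P n ∧ blocks K r (wt d n) ∈ Ev i) -
      δ' / 2 * prob K r (Ev i) * X| ≤ ε / 2 * X := fun i => hX X hX₀ r K hadm (Ev i)
  have hX0 : (0 : ℝ) ≤ X := Nat.cast_nonneg X
  -- the sums
  have hA : |oddSum X (fun m => if P m then Φ (blocks K r (wt d m)) else 0) -
      (1 / (N : ℝ)) * ∑ i ∈ Icc 1 N, oddCount X (fun n => P n ∧ blocks K r (wt d n) ∈ Ev i)| ≤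
      X / N := by
    have e1 : (1 / (N : ℝ)) * ∑ i ∈ Icc 1 N,
        oddCount X (fun n => P n ∧ blocks K r (wt d n) ∈ Ev i) =
        oddSum X (fun m => if P m then (1 / (N : ℝ)) * (∑ i ∈ Icc 1 N,
          if (i : ℝ) / N ≤ Φ (blocks K r (wt d m)) then (1 : ℝ) else 0) else 0) := by
      simp only [oddCount_eq]
      unfold oddSum
      rw [sum_comm, mul_sum]
      refine sum_congr rfl fun m _ => ?_
      by_cases hm : P m
      · simp only [hm, true_and, if_true]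
        rfl
      · simp [hm]
    rw [e1]
    unfold oddSum
    rw [← sum_sub_distrib]
    refine (abs_sum_le_sum_abs _ _).trans ?_
    have e2 : ∀ m ∈ (range (X + 1)).filter Odd,
        |(if P m then Φ (blocks K r (wt d m)) else 0) - (if P m then (1 / (N : ℝ)) * (∑ i ∈ Icc 1 N,
          if (i : ℝ) / N ≤ Φ (blocks K r (wt d m)) then (1 : ℝ) else 0) else 0)| ≤
        (1 / N) * 1 := by
      intro m _
      by_cases hm : P m
      · simp only [hm, if_true]
        obtain ⟨g1, g2⟩ := layer N hN0 (Φ (blocks K r (wt d m))) (hΦ _).1 (hΦ _).2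
        rw [abs_of_nonneg (by linarith)]
        linarith
      · simp only [hm, if_false, sub_zero, abs_zero]
        positivity
    refine (sum_le_sum e2).trans ?_
    rw [← mul_sum]
    have := oddSum_one_le X
    unfold oddSum at this
    calc (1 / (N : ℝ)) * ∑ i ∈ range (X + 1) with Odd i, (1 : ℝ) ≤ (1 / (N : ℝ)) * X := by gcongr
      _ = X / N := by ring
  -- the model
  have hmeas : Measurable (fun ω : ℕ → ℕ => blocks K r (fun j => ω j + 1)) := by
    apply measurable_pi_lambda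
    intro i
    unfold blocks
    apply Finset.measurable_sum
    intro j _
    exact (measurable_pi_apply j).add_const 1
  have hB : |(∫ ω : ℕ → ℕ, Φ (blocks K r (fun j => ω j + 1)) ∂PP) -
      (1 / (N : ℝ)) * ∑ i ∈ Icc 1 N, prob K r (Ev i)| ≤ 1 / N := by
    have hme : ∀ i : ℕ, MeasurableSet {ω : ℕ → ℕ | blocks K r (fun j => ω j + 1) ∈ Ev i} :=
      fun i => Pool.Agent.Results.MP_f7abf1_nt.BlockLaw.meas_blocks K r (Ev i)
    have e1 : ∀ i : ℕ, prob K r (Ev i) = ∫ ω : ℕ → ℕ,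
        (if (i : ℝ) / N ≤ Φ (blocks K r (fun j => ω j + 1)) then (1 : ℝ) else 0) ∂PP := by
      intro i
      unfold prob
      rw [Pool.Agent.Results.MP_f7abf1_nt.BlockLaw.model_eq]
      have e2 : (fun ω : ℕ → ℕ =>
          (if (i : ℝ) / N ≤ Φ (blocks K r (fun j => ω j + 1)) then (1 : ℝ) else 0)) =
          Set.indicator {ω : ℕ → ℕ | blocks K r (fun j => ω j + 1) ∈ Ev i} (fun _ => (1 : ℝ)) := by
        funext ω
        rw [Set.indicator_apply]
        rfl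
      rw [e2, integral_indicator (hme i), setIntegral_const, smul_eq_mul, mul_one]
    have hint : ∀ i : ℕ, Integrable (fun ω : ℕ → ℕ =>
        (if (i : ℝ) / N ≤ Φ (blocks K r (fun j => ω j + 1)) then (1 : ℝ) else 0)) PP := by
      intro i
      have e2 : (fun ω : ℕ → ℕ =>
          (if (i : ℝ) / N ≤ Φ (blocks K r (fun j => ω j + 1)) then (1 : ℝ) else 0)) =
          Set.indicator {ω : ℕ → ℕ | blocks K r (fun j => ω j + 1) ∈ Ev i} (fun _ => (1 : ℝ)) := by
        funext ω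
        rw [Set.indicator_apply]
        rfl
      rw [e2]
      exact (integrable_const 1).indicator (hme i)
    have hΦi : Integrable (fun ω : ℕ → ℕ => Φ (blocks K r (fun j => ω j + 1))) PP := by
      refine Integrable.mono' (g := fun _ => (1 : ℝ)) (integrable_const 1) ?_ ?_
      · exact ((measurable_of_countable Φ).comp hmeas).aestronglyMeasurable
      · refine Eventually.of_forall fun ω => ?_
        rw [Real.norm_eq_abs, abs_of_nonneg (hΦ _).1]
        exact (hΦ _).2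
    simp only [e1]
    rw [← integral_finsetSum _ (fun i _ => hint i), ← integral_const_mul,
      ← integral_sub hΦi ((integrable_finsetSum _ fun i _ => hint i).const_mul _)]
    rw [← Real.norm_eq_abs]
    refine (norm_integral_le_of_norm_le_const (μ := PP) (C := 1 / (N : ℝ)) ?_).trans
      (le_of_eq (by rw [probReal_univ, mul_one]))
    refine Eventually.of_forall fun ω => ?_
    obtain ⟨g1, g2⟩ := layer N hN0 (Φ (blocks K r (fun j => ω j + 1))) (hΦ _).1 (hΦ _).2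
    rw [Real.norm_eq_abs, abs_of_nonneg (by linarith)]
    linarith
  -- the middle term
  have hC : |(1 / (N : ℝ)) * ∑ i ∈ Icc 1 N,
      oddCount X (fun n => P n ∧ blocks K r (wt d n) ∈ Ev i) -
      δ' / 2 * ((1 / (N : ℝ)) * ∑ i ∈ Icc 1 N, prob K r (Ev i)) * X| ≤ ε / 2 * X := by
    have e1 : (1 / (N : ℝ)) * ∑ i ∈ Icc 1 N,
        oddCount X (fun n => P n ∧ blocks K r (wt d n) ∈ Ev i) -
        δ' / 2 * ((1 / (N : ℝ)) * ∑ i ∈ Icc 1 N, prob K r (Ev i)) * X =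
        (1 / (N : ℝ)) * ∑ i ∈ Icc 1 N, (oddCount X (fun n => P n ∧ blocks K r (wt d n) ∈ Ev i) -
          δ' / 2 * prob K r (Ev i) * X) := by
      rw [sum_sub_distrib, ← sum_mul, ← mul_sum]
      ring
    rw [e1, abs_mul, abs_of_pos (show 0 < 1 / (N : ℝ) by positivity)]
    have e2 : |∑ i ∈ Icc 1 N, (oddCount X (fun n => P n ∧ blocks K r (wt d n) ∈ Ev i) -
          δ' / 2 * prob K r (Ev i) * X)| ≤ N * (ε / 2 * X) := by
      refine (abs_sum_le_sum_abs _ _).trans ((sum_le_sum fun i _ => hi i).trans (le_of_eq ?_))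
      rw [sum_const, Nat.card_Icc, nsmul_eq_mul]
      simp
    calc (1 / (N : ℝ)) * |∑ i ∈ Icc 1 N, (oddCount X (fun n => P n ∧ blocks K r (wt d n) ∈ Ev i) -
          δ' / 2 * prob K r (Ev i) * X)| ≤ (1 / (N : ℝ)) * (N * (ε / 2 * X)) := by gcongr
      _ = ε / 2 * X := by field_simp
  set a := oddSum X (fun m => if P m then Φ (blocks K r (wt d m)) else 0)
  set c := (1 / (N : ℝ)) * ∑ i ∈ Icc 1 N, oddCount X (fun n => P n ∧ blocks K r (wt d n) ∈ Ev i)
  set I := ∫ ω : ℕ → ℕ, Φ (blocks K r (fun j => ω j + 1)) ∂PP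
  set q := (1 / (N : ℝ)) * ∑ i ∈ Icc 1 N, prob K r (Ev i)
  have hD : |δ' / 2 * q * X - δ' / 2 * I * X| ≤ |δ'| / 2 * (1 / N) * X := by
    have e1 : δ' / 2 * q * X - δ' / 2 * I * X = -(δ' / 2 * (I - q) * X) := by ring
    rw [e1, abs_neg, abs_mul, abs_mul, abs_of_nonneg hX0, abs_div, abs_of_pos (show (0 : ℝ) < 2 by norm_num)]
    gcongr
  have hE : a - δ' / 2 * I * X = (a - c) + (c - δ' / 2 * q * X) + (δ' / 2 * q * X - δ' / 2 * I * X) := by
    ring
  rw [hE]
  refine (abs_add_three _ _ _).trans ?_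
  have hF : X / N + ε / 2 * X + |δ'| / 2 * (1 / N) * X = ((1 + |δ'| / 2) / N) * X + ε / 2 * X := by
    ring
  calc _ ≤ X / N + ε / 2 * X + |δ'| / 2 * (1 / N) * X := by gcongr
    _ = ((1 + |δ'| / 2) / N) * X + ε / 2 * X := hF
    _ ≤ ε / 2 * X + ε / 2 * X := by gcongr
    _ = ε * X := by ring

end Pool.Agent.H55.BG.TVP
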