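import Pool.Agent.H55.BG.Chain
import Pool.Agent.H55.BG.CTL
import Pool.Agent.H55.BG.TVP
import Pool.Agent.H55.BG.CDT
import Pool.Agent.H55.BG.DETT2
import Pool.Agent.H55.BG.FCL
import Pool.Agent.H55.BG.CNT

/-!
# Project BG: everything together
-/

set_option autoImplicit false

namespace Pool.Agent.H55.BG

open Finset Filter Topology MeasureTheory ProbabilityTheory
open scoped NNReal
open Pool.Agent.H499R2.ND (Inv Td HD dens_side HD_ncard one_pos one_lt one_eq_zero side_inv side_odd side_cop)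
open Pool.Agent.Results.MP_f7abf1_nt.BlockLaw (oddCount HasDensity)

theorem ctl (d : ℤ) (hd : Odd d) (hd3 : IsCoprime d 3) : S_CTL d :=
  CTL.main d hd hd3 (stage d hd hd3) (pull d hd hd3) DK.COUNT.main

theorem dett (d : ℤ) (hd : Odd d) (hd3 : IsCoprime d 3) : S_DETT d := DETT.main d hd hd3 (CDT.main d hd hd3)

theorem dens_bd {S : Set ℤ} {δ : ℝ} (h : HasDensity (fun n : ℕ => (n : ℤ) ∈ S) δ) : 0 ≤ δ ∧ δ ≤ 1 := by
  have h' : Tendsto (fun N : ℕ => ({n : ℕ | 1 ≤ n ∧ n ≤ N ∧ (n : ℤ) ∈ S}.ncard : ℝ) / N) atTop (𝓝 δ) := h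
  constructor
  · exact ge_of_tendsto' h' fun N => by positivity
  · apply le_of_tendsto' h' fun N => ?_
    rcases Nat.eq_zero_or_pos N with h0 | h0
    · subst h0
      simp
    · have hN : (0 : ℝ) < N := by exact_mod_cast h0
      rw [div_le_one hN]
      have hs : {n : ℕ | 1 ≤ n ∧ n ≤ N ∧ (n : ℤ) ∈ S} ⊆ (Finset.Icc 1 N : Finset ℕ) := by
        rintro n ⟨h1, h2, _⟩
        rw [Finset.coe_Icc]
        exact ⟨h1, h2⟩
      have h1 := Set.ncard_le_ncard hs (Finset.finite_toSet _)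
      rw [Set.ncard_coe_finset, Nat.card_Icc] at h1
      exact_mod_cast (show {n : ℕ | 1 ≤ n ∧ n ≤ N ∧ (n : ℤ) ∈ S}.ncard ≤ N by omega)

theorem fcl (d : ℤ) (hd : Odd d) (hd3 : IsCoprime d 3) : S_FCL d :=
  FCL.main d (ctl d hd hd3) (TVP.main d hd hd3) DK.SUM.main DK.WALK.main DK.BM.main (dett d hd hd3)
    fun _ _ _ h => dens_bd h

theorem cnt (d : ℤ) (hd : Odd d) (hd3 : IsCoprime d 3) : S_CNT d :=
  CNT.main d (ctl d hd hd3) (TVP.main d hd hd3) (dett d hd hd3) (BZ.TUB2.main DK.PMAX.main)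

/-! ## both sides -/

/-- deviation of `T^k x` -/
noncomputable def devZ (d x : ℤ) (k : ℕ) : ℝ :=
  Real.log |(((Td d)^[k] x : ℤ) : ℝ)| - Real.log |(x : ℝ)| + k / 2 * Real.log (4 / 3)

noncomputable def scaleZ (x : ℤ) : ℝ := Real.log 3 / 2 * Real.sqrt (2 * Real.log |(x : ℝ)| / Real.log (4 / 3))

noncomputable def pathZ (d x : ℤ) (t : ℝ) : ℝ :=
  devZ d x ⌊t * (2 * Real.log |(x : ℝ)| / Real.log (4 / 3))⌋₊ / scaleZ x

theorem side_step {d : ℤ} (hd : Odd d) {s : ℤ} (hs : s = 1 ∨ s = -1) (x : ℤ) : Td d (s * x) = s * Td (s * d) x := by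
  have hd' := Int.odd_iff.1 hd
  unfold Td
  rcases hs with rfl | rfl
  · simp
  · by_cases h : x % 2 = 0
    · rw [if_pos (by omega), if_pos h]
      omega
    · rw [if_neg (by omega), if_neg h]
      omega

theorem side_iter {d : ℤ} (hd : Odd d) {s : ℤ} (hs : s = 1 ∨ s = -1) (x : ℤ) (k : ℕ) :
    (Td d)^[k] (s * x) = s * (Td (s * d))^[k] x := by
  induction k with
  | zero => rfl
  | succ k ih => rw [Function.iterate_succ_apply', ih, side_step hd hs, Function.iterate_succ_apply']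

theorem side_path {d : ℤ} (hd : Odd d) {s : ℤ} (hs : s = 1 ∨ s = -1) (n : ℕ) (t : ℝ) :
    pathZ d (s * n) t = pathG (s * d) n t := by
  have habs : ∀ y : ℤ, |((s * y : ℤ) : ℝ)| = |(y : ℝ)| := by
    intro y
    rcases hs with rfl | rfl
    · simp
    · simp
  have hn : |((s * (n : ℤ) : ℤ) : ℝ)| = n := by
    rw [habs]
    simp
  unfold pathZ pathG devZ devG scaleZ BZ.scaleT
  rw [side_iter hd hs, habs, hn]

theorem side_path' {d : ℤ} (hd : Odd d) {s : ℤ} (hs : s = 1 ∨ s = -1) (n : ℕ) :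
    pathZ d (s * n) = pathG (s * d) n := funext fun t => side_path hd hs n t

/-- the side `s` of a set -/
def Sd (s : ℤ) (P : Set ℤ) : Set ℤ := {x | s * x ∈ P}

/-- densities of invariant sets for `d = 1` -/
theorem dens {s : ℤ} (hs : s = 1 ∨ s = -1) {P : Set ℤ} (hP : Inv 1 P) : ∃ δ : ℝ, 0 ≤ δ ∧ δ ≤ 1 ∧
    HasDensity (fun n : ℕ => (n : ℤ) ∈ Sd s P) δ ∧ (0 < δ ↔ ∃ x, x ∈ P ∧ 0 < s * x) ∧
    (δ = 1 ↔ ∀ x, 0 < s * x → x ∈ P) := by
  obtain ⟨l, h0, h1, hl⟩ := dens_side odd_one isCoprime_one_left hs hP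
  refine ⟨l, h0, h1, ?_, ?_, ?_⟩
  · have h2 : HD 1 (Sd s P) l := by
      unfold HD Sd at *
      simpa only [one_mul, Set.mem_ofPred_eq] using hl
    have h3 := HD_ncard (Or.inl rfl : (1 : ℤ) = 1 ∨ _) h2
    refine h3.congr fun N => ?_
    rw [TVP.ncard_nat]
  · constructor
    · intro h
      by_contra hcon
      push Not at hcon
      have := one_eq_zero hs (fun a ha => not_lt.2 (hcon a ha)) hl
      linarith
    · rintro ⟨x, hx, hx0⟩
      exact one_pos hs hP hx hx0 hl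
  · constructor
    · intro h x hx
      by_contra hcon
      have := one_lt hs hP hcon hx hl
      linarith
    · intro h
      obtain ⟨l', k0, k1, hl'⟩ := dens_side odd_one isCoprime_one_left hs hP.compl
      have h2 := Pool.Agent.H499R2.ND.HD_compl hl hl'
      have h3 := one_eq_zero hs (S := Pᶜ) (fun a ha h4 => ha (h a h4)) hl'
      linarith

open Classical in
/-- the functional limit theorem on the side `s` -/
theorem lim {d : ℤ} (hd : Odd d) (hd3 : IsCoprime d 3) {s : ℤ} (hs : s = 1 ∨ s = -1) {P : Set ℤ} (hP : Inv d P)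
    {δ : ℝ} (hδ : HasDensity (fun n : ℕ => (n : ℤ) ∈ Sd s P) δ)
    (Ω : Type) [MeasurableSpace Ω] (P' : Measure Ω) [IsProbabilityMeasure P'] (B : ℝ≥0 → Ω → ℝ)
    (hBM : IsBrownianReal B P') {a : ℝ} (ha : 0 < a) (ha1 : a < 1) (F : (ℝ → ℝ) → ℝ)
    (hb : ∃ M : ℝ, ∀ f, |F f| ≤ M)
    (hu : ∀ ε : ℝ, 0 < ε → ∃ η : ℝ, 0 < η ∧
      ∀ f g : ℝ → ℝ, (∀ t, 0 ≤ t → t ≤ a → |f t - g t| ≤ η) → |F f - F g| ≤ ε) :
    Tendsto (fun N : ℕ => (∑ n ∈ (Icc 1 N).filter (fun n : ℕ => s * (n : ℤ) ∈ P), F (pathZ d (s * n))) / N) atTop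
      (𝓝 (δ * ∫ ω, F (fun t => B t.toNNReal ω) ∂P')) := by
  obtain ⟨M, hM⟩ := hb
  set K : ℝ := |M| + 1 with hK
  have hK0 : 0 < K := by positivity
  have hA : BZ.AdmT (1 - (1 - a)) (fun f => F f / K) := by
    have ea : 1 - (1 - a) = a := by ring
    rw [ea]
    constructor
    · intro f
      rw [abs_div, abs_of_pos hK0, div_le_one hK0]
      have := hM f
      have := le_abs_self M
      linarith
    · intro ε hε
      obtain ⟨η, hη, h⟩ := hu (ε * K) (by positivity)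
      refine ⟨η, hη, fun f g hfg => ?_⟩
      rw [← sub_div, abs_div, abs_of_pos hK0, div_le_iff₀ hK0]
      exact h f g hfg
  have h1 := (fcl (s * d) (side_odd hd hs) (side_cop hd3 hs) (Sd s P) (side_inv hd hs hP) δ hδ Ω P' B hBM (1 - a)
    (by linarith) (by linarith) _ hA).const_mul K
  have e1 : K * (δ * (∫ ω, F (fun t => B t.toNNReal ω) / K ∂P')) = δ * ∫ ω, F (fun t => B t.toNNReal ω) ∂P' := by
    rw [integral_div]
    field_simp
  rw [e1] at h1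
  refine h1.congr (fun N => ?_)
  rw [← Finset.sum_filter, ← Finset.sum_div]
  have e2 : ∑ n ∈ (Icc 1 N).filter (fun n : ℕ => s * (n : ℤ) ∈ P), F (pathZ d (s * n)) =
      ∑ n ∈ (Icc 1 N).filter (fun n : ℕ => (n : ℤ) ∈ Sd s P), F (pathG (s * d) n) := by
    apply Finset.sum_congr rfl
    intro n _
    rw [side_path' hd hs]
  rw [e2]
  field_simp

/-- following a profile -/
def FolZ (d : ℤ) (f : ℝ → ℝ) (a ε : ℝ) (x : ℤ) : Prop := ∀ t : ℝ, 0 ≤ t → t ≤ a → |pathZ d x t - f t| ≤ ε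

theorem low {d : ℤ} (hd : Odd d) (hd3 : IsCoprime d 3) {f : ℝ → ℝ} (hf : ContinuousOn f (Set.Icc 0 1)) (hf0 : f 0 = 0)
    {a ε : ℝ} (ha : 0 < a) (ha1 : a < 1) (hε : 0 < ε) : ∃ c : ℝ, 0 < c ∧ ∀ s : ℤ, (s = 1 ∨ s = -1) →
    ∀ P : Set ℤ, Inv d P → ∀ δ : ℝ, HasDensity (fun n : ℕ => (n : ℤ) ∈ Sd s P) δ → ∀ᶠ N : ℕ in atTop,
      c * δ * N ≤ ({n : ℕ | 1 ≤ n ∧ n ≤ N ∧ (s * (n : ℤ) ∈ P ∧ FolZ d f a ε (s * n))}.ncard : ℝ) := by
  have key : ∀ s : ℤ, (s = 1 ∨ s = -1) → ∃ c : ℝ, 0 < c ∧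
    ∀ P : Set ℤ, Inv d P → ∀ δ : ℝ, HasDensity (fun n : ℕ => (n : ℤ) ∈ Sd s P) δ → ∀ᶠ N : ℕ in atTop,
      c * δ * N ≤ ({n : ℕ | 1 ≤ n ∧ n ≤ N ∧ (s * (n : ℤ) ∈ P ∧ FolZ d f a ε (s * n))}.ncard : ℝ) := by
    intro s hs
    obtain ⟨c, hc, h⟩ := cnt (s * d) (side_odd hd hs) (side_cop hd3 hs) f hf hf0 (1 - a) ε (by linarith) (by linarith) hε
    refine ⟨c, hc, fun P hP δ hδ => ?_⟩
    have h1 := h (Sd s P) (side_inv hd hs hP) δ hδ (dens_bd hδ).1
    have ea : 1 - (1 - a) = a := by ring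
    rw [ea] at h1
    filter_upwards [h1] with N hN
    have e : {n : ℕ | 1 ≤ n ∧ n ≤ N ∧ (n : ℤ) ∈ Sd s P ∧ Fol (s * d) f a ε n} =
        {n : ℕ | 1 ≤ n ∧ n ≤ N ∧ (s * (n : ℤ) ∈ P ∧ FolZ d f a ε (s * n))} := by
      ext n
      have e3 : Fol (s * d) f a ε n ↔ FolZ d f a ε (s * n) := by
        unfold Fol FolZ
        rw [side_path' hd hs]
      have e4 : (n : ℤ) ∈ Sd s P ↔ s * (n : ℤ) ∈ P := Iff.rfl
      simp only [Set.mem_ofPred_eq, e3, e4]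
    rw [← e]
    exact hN
  obtain ⟨c1, hc1, h1⟩ := key 1 (Or.inl rfl)
  obtain ⟨c2, hc2, h2⟩ := key (-1) (Or.inr rfl)
  refine ⟨min c1 c2, lt_min hc1 hc2, ?_⟩
  intro s hs P hP δ hδ
  have hδ0 := (dens_bd hδ).1
  rcases hs with rfl | rfl
  · filter_upwards [h1 P hP δ hδ] with N hN
    refine le_trans ?_ hN
    have : 0 ≤ δ * N := mul_nonneg hδ0 (Nat.cast_nonneg _)
    rw [mul_assoc, mul_assoc]
    exact mul_le_mul_of_nonneg_right (min_le_left _ _) this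
  · filter_upwards [h2 P hP δ hδ] with N hN
    refine le_trans ?_ hN
    have : 0 ≤ δ * N := mul_nonneg hδ0 (Nat.cast_nonneg _)
    rw [mul_assoc, mul_assoc]
    exact mul_le_mul_of_nonneg_right (min_le_right _ _) this

end Pool.Agent.H55.BG
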