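import Pool.Agent.H55.BG.Stm

/-!
# Project BG: the chain ERR, COMP, MEM, STAGE, PULL for all `3x+d` maps (helper19; copies of
`Pool/Agent/H55/DK/{ERR,COMP,MEM,STAGE,PULL}.lean` with `d` in the place of `1`)
-/

set_option autoImplicit false

namespace Pool.Agent.H55.BG

open Pool.Agent.H320R2.PD Pool.Agent.H499R2.ND Finset Filter Topology

namespace CHAIN

theorem err (d : ℤ) : S_ERR d := by
  obtain ⟨Cm, hCm, hmix⟩ := mix 64
  refine ⟨2 * (Cm * (2 ^ 64 / 0.4096 + 1)) + 3 * ((24 : ℕ).factorial * 12800 ^ 24)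
    + (|(d : ℝ)| + 3) * 2 * ((3 : ℕ).factorial * 5 ^ 3), 1000, by positivity, le_rfl, ?_⟩
  intro A hA ht k m m' hm hk8 hk1 hm'
  set t := Real.log A with htdef
  have htpos : 0 < t := by linarith
  have ht1 : 1 ≤ t := by linarith
  have hexpA : Real.exp t = A := Real.exp_log hA
  have hk0 : 0 < k := by
    rcases Nat.eq_zero_or_pos k with h | h
    · subst h
      norm_num at hk8
      linarith
    · exact h
  have hk1N : 1 ≤ k := hk0
  have hkpos : (1 : ℝ) ≤ k := by exact_mod_cast hk1N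
  have hkR : (0 : ℝ) < k := by linarith
  -- `m`
  have hm2 : (m : ℝ) ^ 2 ≤ t := by
    refine le_trans ?_ hm
    rcases Nat.eq_zero_or_pos m with h | h
    · subst h; norm_num
    · exact pow_le_pow_right₀ (by exact_mod_cast h) (by norm_num)
  have hmt : (m : ℝ) ≤ t / 2 := by
    have h1 : (m : ℝ) ≤ Real.sqrt t := Real.le_sqrt_of_sq_le hm2
    have h2 : Real.sqrt t ≤ t / 2 := by
      rw [Real.sqrt_le_left (by positivity)]
      nlinarith
    linarith
  -- `m'`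
  set y : ℝ := (0.8 * t) ^ (1 / 16 : ℝ) with hy
  have hy16 : y ^ 16 = 0.8 * t := by
    rw [hy, ← Real.rpow_natCast, ← Real.rpow_mul (by positivity)]
    norm_num
  have hy1 : 1 ≤ y := Real.one_le_rpow (by linarith) (by norm_num)
  have hm'y : (m' : ℝ) ≤ y := by rw [hm']; exact Nat.floor_le (by linarith)
  have hm'lo : y / 2 ≤ m' := by
    have h1 : y < m' + 1 := by rw [hm']; exact Nat.lt_floor_add_one y
    have h2 : 1 ≤ m' := by
      rw [hm', Nat.one_le_floor_iff]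
      exact hy1
    have h3 : (1 : ℝ) ≤ m' := by exact_mod_cast h2
    linarith
  have hm'pos : 1 ≤ m' := by
    rw [hm', Nat.one_le_floor_iff]
    exact hy1
  have hm'R : (0 : ℝ) < m' := by exact_mod_cast hm'pos
  have hm'k : m' ≤ k := by
    have h1 : (m' : ℝ) ^ 16 ≤ (k : ℝ) ^ 16 := by
      calc (m' : ℝ) ^ 16 ≤ y ^ 16 := pow_le_pow_left₀ hm'R.le hm'y 16
        _ = 0.8 * t := hy16
        _ ≤ (k : ℝ) ^ 8 := by linarith
        _ ≤ (k : ℝ) ^ 16 := pow_le_pow_right₀ hkpos (by norm_num)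
    have h2 : (m' : ℝ) ≤ k := (pow_le_pow_iff_left₀ hm'R.le hkR.le (by norm_num)).1 h1
    exact_mod_cast h2
  refine ⟨hk1N, hm'k, ?_⟩
  -- exponentially small quantities
  have hexp5 := exp_neg_le 3 (by norm_num : (0 : ℝ) < 5) htpos
  have hsmall : (2 : ℝ) ^ (41 * k / 20) * (2 * 3 ^ m / A) ≤ 2 * Real.exp (-(t / 5)) := by
    have h1 := pow_tm_le htpos.le hk1
    have h2 := pow_m_le ht hm2
    have h3 : (2 : ℝ) ^ (41 * k / 20) * (2 * 3 ^ m / A)
        ≤ Real.exp (0.7106 * t) * (2 * Real.exp (0.05 * t) / Real.exp t) := by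
      rw [← hexpA]
      apply mul_le_mul h1 _ (by positivity) (Real.exp_pos _).le
      apply div_le_div_of_nonneg_right _ (Real.exp_pos _).le
      linarith
    have h4 : Real.exp (0.7106 * t) * (2 * Real.exp (0.05 * t) / Real.exp t)
        = 2 * Real.exp (0.7106 * t + 0.05 * t - t) := by
      rw [Real.exp_sub, Real.exp_add]; ring
    rw [h4] at h3
    refine h3.trans ?_
    apply mul_le_mul_of_nonneg_left _ (by norm_num)
    apply Real.exp_le_exp.2
    linarith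
  have hexpsmall : Real.exp (-(t / 5)) ≤ 1 / 2 := by
    have h1 := Real.add_one_le_exp (t / 5)
    rw [Real.exp_neg, inv_eq_one_div]
    apply one_div_le_one_div_of_le (by norm_num)
    linarith
  have h3mA : 0 ≤ (2 * 3 ^ m / A : ℝ) := by positivity
  have hone : (2 * 3 ^ m / A : ℝ) ≤ 2 * Real.exp (-(t / 5)) := by
    have : (1 : ℝ) ≤ 2 ^ (41 * k / 20) := one_le_pow₀ (by norm_num)
    nlinarith
  -- mixing
  have hδ := hmix k m m' (3 * k) hk1N hm'pos hm'k (le_refl _)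
  set δ := ∑ T ∈ range (k * (3 * k) + 1), dev (FWT (3 * k) k T) wwt (fun w => (Wo w : ℤ)) (k + m) m'
    with hδdef
  have hδnn : 0 ≤ δ := sum_nonneg fun _ _ => sum_nonneg fun _ _ => abs_nonneg _
  have hδ2 : δ ≤ (Cm * (2 ^ 64 / 0.4096 + 1)) / t ^ 3 := by
    have e1 : ((k : ℝ) + m) ≤ t := by linarith
    have e2 : (1 / (m' : ℝ)) ^ 64 ≤ (2 ^ 64 / 0.4096) / t ^ 4 := by
      have h1 : (y / 2) ^ 64 ≤ (m' : ℝ) ^ 64 := pow_le_pow_left₀ (by positivity) hm'lo 64
      have h2 : (y / 2) ^ 64 = 0.4096 * t ^ 4 / 2 ^ 64 := by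
        rw [div_pow, show (64 : ℕ) = 16 * 4 by norm_num, pow_mul y, hy16]
        ring
      rw [div_pow, one_pow, div_le_div_iff₀ (by positivity) (by positivity), one_mul]
      rw [h2, div_le_iff₀ (by positivity)] at h1
      have h3 : (2 : ℝ) ^ 64 / 0.4096 * (m' : ℝ) ^ 64 = ((m' : ℝ) ^ 64 * 2 ^ 64) / 0.4096 := by ring
      rw [h3, le_div_iff₀ (by norm_num)]
      linarith
    have e3 : ((m : ℝ) / k) ^ 64 ≤ 1 / t ^ 4 := by
      have h1 : (m : ℝ) ^ 64 ≤ t ^ 4 := by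
        calc (m : ℝ) ^ 64 = ((m : ℝ) ^ 16) ^ 4 := by rw [← pow_mul]
          _ ≤ t ^ 4 := pow_le_pow_left₀ (by positivity) hm 4
      have h2 : t ^ 8 ≤ (k : ℝ) ^ 64 := by
        calc t ^ 8 ≤ ((k : ℝ) ^ 8) ^ 8 := pow_le_pow_left₀ htpos.le hk8 8
          _ = (k : ℝ) ^ 64 := by rw [← pow_mul]
      rw [div_pow, div_le_div_iff₀ (by positivity) (by positivity), one_mul]
      calc (m : ℝ) ^ 64 * t ^ 4 ≤ t ^ 4 * t ^ 4 := mul_le_mul_of_nonneg_right h1 (by positivity)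
        _ = t ^ 8 := by ring
        _ ≤ (k : ℝ) ^ 64 := h2
    have e4 : t * (Cm * ((2 ^ 64 / 0.4096) / t ^ 4 + 1 / t ^ 4)) = (Cm * (2 ^ 64 / 0.4096 + 1)) / t ^ 3 := by
      field_simp
    calc δ ≤ (k + m) * (Cm * ((1 / (m' : ℝ)) ^ 64 + ((m : ℝ) / k) ^ 64)) := hδ
      _ ≤ t * (Cm * ((2 ^ 64 / 0.4096) / t ^ 4 + 1 / t ^ 4)) := by
          have p1 : 0 ≤ (1 / (m' : ℝ)) ^ 64 := pow_nonneg (by positivity) _
          have p2 : 0 ≤ ((m : ℝ) / k) ^ 64 := pow_nonneg (by positivity) _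
          apply mul_le_mul e1 _ (mul_nonneg hCm.le (add_nonneg p1 p2)) htpos.le
          apply mul_le_mul_of_nonneg_left _ hCm.le
          linarith
      _ = _ := e4
  -- mass
  have hmass := mass_GW k
  have hmass2 : Real.exp (-(k / 12800 : ℝ)) ≤ ((24 : ℕ).factorial * 12800 ^ 24) / t ^ 3 := by
    have h1 := exp_neg_le 24 (by norm_num : (0 : ℝ) < 12800) hkR
    refine h1.trans ?_
    apply div_le_div_of_nonneg_left (by positivity) (by positivity)
    calc t ^ 3 ≤ ((k : ℝ) ^ 8) ^ 3 := pow_le_pow_left₀ htpos.le hk8 3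
      _ = (k : ℝ) ^ 24 := by rw [← pow_mul]
  unfold Err
  rw [← hδdef]
  obtain ⟨D, hD⟩ : ∃ D, D = |(d : ℝ)| := ⟨_, rfl⟩
  have hD0 : 0 ≤ D := by rw [hD]; exact abs_nonneg _
  rw [← hD]
  have f1 : (1 + 2 ^ (41 * k / 20) * (2 * 3 ^ m / A)) * δ ≤ 2 * δ :=
    mul_le_mul_of_nonneg_right (by linarith) hδnn
  have f2 : (1 + (D + 2) * 2 ^ (41 * k / 20)) * (2 * 3 ^ m / A) ≤ (D + 3) * (2 * Real.exp (-(t / 5))) := by
    calc (1 + (D + 2) * 2 ^ (41 * k / 20)) * (2 * 3 ^ m / A)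
        = (2 * 3 ^ m / A) + (D + 2) * (2 ^ (41 * k / 20) * (2 * 3 ^ m / A)) := by ring
      _ ≤ 2 * Real.exp (-(t / 5)) + (D + 2) * (2 * Real.exp (-(t / 5))) := by
          have := mul_le_mul_of_nonneg_left hsmall (show 0 ≤ D + 2 by linarith)
          linarith
      _ = _ := by ring
  have f3 : (D + 3) * (2 * Real.exp (-(t / 5))) ≤ (D + 3) * (2 * (((3 : ℕ).factorial * 5 ^ 3) / t ^ 3)) := by
    apply mul_le_mul_of_nonneg_left _ (by linarith)
    linarith
  calc (1 + 2 ^ (41 * k / 20) * (2 * 3 ^ m / A)) * δ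
      + (1 - ∑ w ∈ GW (3 * k) k ((39 * k + 19) / 20) (41 * k / 20), wwt w)
      + (1 + (D + 2) * 2 ^ (41 * k / 20)) * (2 * 3 ^ m / A)
      ≤ 2 * ((Cm * (2 ^ 64 / 0.4096 + 1)) / t ^ 3)
        + 3 * (((24 : ℕ).factorial * 12800 ^ 24) / t ^ 3)
        + (D + 3) * (2 * (((3 : ℕ).factorial * 5 ^ 3) / t ^ 3)) := by
        linarith
    _ = _ := by ring


section

open Pool.Agent.TH977.IP (next_k)
open Pool.Agent.H55.DK (WEf Gf)
open Pool.Agent.H55.DK.COMP (WEf_nonneg exp_small mass_small)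

theorem comp (d : ℤ) (hd : Odd d) (hd3 : IsCoprime d 3) (hE : S_ERR d) : S_COMP d := by
  classical
  intro N hN
  obtain ⟨Ce, te, hCe, hte, herr⟩ := hE
  have hNR : (20 : ℝ) ≤ N := by exact_mod_cast hN
  set Cm : ℝ := 3 * ((Nat.factorial 24 : ℕ) / (1 / (32 * (N : ℝ) ^ 2)) ^ 24) with hCm
  have hCm0 : 0 < Cm := by rw [hCm]; positivity
  refine ⟨Ce + Cm, te, by positivity, hte, ?_⟩
  intro τ hτ ks cap
  have hτ0 : 0 < τ := by linarith
  induction ks with
  | nil =>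
    intro _ F ρ hρ A hA hG m hm
    have h := hG m hm
    show PB (F []) A m (ρ [] + ((([] : List ℕ).length : ℕ) : ℝ) * _)
    simpa using h
  | cons k ks ih =>
    intro hcap F ρ hρ A hA hG m hm
    obtain ⟨hG1, hG2, hG3, hG4⟩ := hG
    have hcapk : 3 * k ≤ cap := hcap k (by simp)
    have hcap' : ∀ k' ∈ ks, 3 * k' ≤ cap := fun k' hk' => hcap k' (by simp [hk'])
    set t := Real.log A with ht
    have hAt : te ≤ t := hτ.trans hG1
    have ht1000 : 1000 ≤ t := hte.trans hAt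
    set m' := ⌊(0.8 * t) ^ (1 / 16 : ℝ)⌋₊ with hm'
    obtain ⟨hk1, hm'k, hp⟩ := herr A hA hAt k m m' hm hG2 hG3 rfl
    have hkpos : (0:ℝ) < k := by exact_mod_cast hk1
    set a : ℝ := (k:ℝ) / N with ha
    have ha0 : 0 < a := by positivity
    have hak : a ≤ k / 20 := by
      rw [ha]
      exact div_le_div_of_nonneg_left hkpos.le (by norm_num) hNR
    obtain ⟨Tl, Tm, hTm, hT, hmass⟩ := mass_win hk1 ha0 hak
    have hmass' : 1 - ∑ w ∈ GW (3 * k) k Tl Tm, wwt w ≤ Cm / t ^ 3 :=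
      hmass.trans (mass_small hN (by linarith) hG2)
    have ht3 : (Ce + Cm) / t ^ 3 ≤ (Ce + Cm) / τ ^ 3 := by
      apply div_le_div_of_nonneg_left (by positivity) (by positivity)
      exact pow_le_pow_left₀ hτ0.le hG1 3
    have hm'16 : (m' : ℝ) ^ 16 ≤ 0.8 * t := by
      have h1 : (m' : ℝ) ≤ (0.8 * t) ^ (1 / 16 : ℝ) := Nat.floor_le (by positivity)
      calc (m' : ℝ) ^ 16 ≤ ((0.8 * t) ^ (1 / 16 : ℝ)) ^ 16 := pow_le_pow_left₀ (Nat.cast_nonneg _) h1 16
        _ = 0.8 * t := by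
          rw [← Real.rpow_natCast, ← Real.rpow_mul (by positivity)]
          norm_num
    have hstage := stageW hd hd3 (S := SEf d (k :: ks) F)
      (fun T => SEf d ks (fun l => F (T :: l))) hA (k := k) (m := m) (m' := m') (Tl := Tl) (Tm := Tm)
      hk1 hm'k hTm (ρ := fun T => WEf cap ks (fun l => ρ (T :: l)) + ks.length * ((Ce + Cm) / τ ^ 3)) ?_ ?_
    · refine PB_mono hA ?_ hstage
      have hw1 : ∑ w ∈ GW (3 * k) k Tl Tm, wwt w ≤ 1 := by
        refine le_trans (sum_le_sum_of_subset_of_nonneg (filter_subset _ _)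
          (fun w _ _ => wwt_nonneg w)) (sum_wwt_le (3 * k) k)
      have hc0 : 0 ≤ ks.length * ((Ce + Cm) / τ ^ 3) := by positivity
      have e1 : ∑ w ∈ GW (3 * k) k Tl Tm, wwt w * (WEf cap ks (fun l => ρ (w.sum :: l)) + ks.length * ((Ce + Cm) / τ ^ 3)) =
          ∑ w ∈ GW (3 * k) k Tl Tm, wwt w * WEf cap ks (fun l => ρ (w.sum :: l)) +
            (∑ w ∈ GW (3 * k) k Tl Tm, wwt w) * (ks.length * ((Ce + Cm) / τ ^ 3)) := by
        rw [sum_mul, ← sum_add_distrib]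
        apply sum_congr rfl
        intro w _
        ring
      have e2 : (∑ w ∈ GW (3 * k) k Tl Tm, wwt w) * (ks.length * ((Ce + Cm) / τ ^ 3)) ≤
          1 * (ks.length * ((Ce + Cm) / τ ^ 3)) := mul_le_mul_of_nonneg_right hw1 hc0
      have e3 : ∑ w ∈ GW (3 * k) k Tl Tm, wwt w * WEf cap ks (fun l => ρ (w.sum :: l)) ≤
          WEf cap (k :: ks) ρ := by
        have hsub : GW (3 * k) k Tl Tm ⊆ FW cap k := by
          intro w hw
          have hw' := (mem_filter.1 hw).1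
          rw [mem_FW] at hw' ⊢
          exact ⟨hw'.1, fun e he => ⟨(hw'.2 e he).1, (hw'.2 e he).2.trans hcapk⟩⟩
        exact sum_le_sum_of_subset_of_nonneg hsub
          (fun w _ _ => mul_nonneg (wwt_nonneg w) (WEf_nonneg _ _ _ fun l => hρ _))
      have e4 : (((k :: ks).length : ℕ) : ℝ) * ((Ce + Cm) / τ ^ 3) =
          ks.length * ((Ce + Cm) / τ ^ 3) + (Ce + Cm) / τ ^ 3 := by
        rw [List.length_cons]
        push_cast
        ring
      have e5 : Ce / t ^ 3 + Cm / t ^ 3 = (Ce + Cm) / t ^ 3 := by ring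
      rw [e1, e4]
      linarith
    · intro w hw M x hM hx _ _ hMS hV
      have hw' := (mem_filter.1 hw).1
      rw [mem_FW] at hw'
      exact hMS w hw'.1 (fun a ha => (hw'.2 a ha).1) x hx hV
    · intro T hTl hTm'
      have hTa : |(T:ℝ) - 2 * k| ≤ a := (hT T).1 ⟨hTl, hTm'⟩
      have hTk : |(T:ℝ) - 2 * k| ≤ k / 20 := hTa.trans hak
      have n1 := next_k hA hG3 hTk
      rw [← ht] at n1
      have hAT : 0 < A * 3 ^ k / 2 ^ T := by positivity
      have hG4' := hG4 T (by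
        rw [ha, le_div_iff₀ (by positivity)] at hTa
        linarith)
      exact ih hcap' (fun l => F (T :: l)) (fun l => ρ (T :: l)) (fun l => hρ _) (A * 3 ^ k / 2 ^ T) hAT hG4'
        m' (hm'16.trans n1)


end

section

open Pool.Agent.TH977.IP (Sy ex stf word_seq)

theorem mem (d : ℤ) (hd : Odd d) : S_MEM d := by
  intro ks
  induction ks with
  | nil =>
    intro F M h
    exact h
  | cons k ks ih =>
    intro F M hMS
    intro w hl hw x hx hV
    obtain ⟨h1, h2⟩ := word_seq (d := d) hd w hw M x hx hV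
    rw [hl] at h1 h2
    rw [List.sum_cons] at hMS
    apply ih _ x
    have e0 : (Sy d)^[ks.sum] x = (Sy d)^[k + ks.sum] M := by
      rw [h2, ← Function.iterate_add_apply, add_comm ks.sum k]
    have e : (fun j => ex d ((Sy d)^[j] x)) = fun j => ex d ((Sy d)^[k + j] M) := by
      funext j
      rw [h2, ← Function.iterate_add_apply, add_comm j k]
    rw [e0, e, h1]
    exact hMS


end

section

open Pool.Agent.TH977.IP (Sy ex stf)
open Pool.Agent.H55.DK (WEf Gf Dv)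
open Pool.Agent.H55.DK.TAIL (Win path_bound win_sum dec_bd gf_list WEf_affine PB_triv PB_empty)

theorem Yz_cast (d : ℤ) (M : ℤ) (j : ℕ) : ((Yz d M j : ℤ) : ℝ) =
    0 + (2 * (j : ℝ) - ∑ i ∈ range j, ((ex d ((Sy d)^[i] M) : ℕ) : ℝ)) := by
  unfold Yz
  push_cast
  ring

theorem stage0 (d : ℤ) (hC : S_COMP d) (hM : S_MEM d) (hW : DK.S_WMAX) : S_STAGE d := by
  classical
  obtain ⟨C, t0, hC0, ht0, hcomp⟩ := hC 20 le_rfl
  refine ⟨2 * C, 2 * t0, by positivity, by linarith, ?_⟩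
  intro A hA hAt q hq lam b hlam hlam1 hb m hm
  obtain ⟨t, ht⟩ : ∃ t, t = Real.log A := ⟨_, rfl⟩
  rw [← ht] at hAt hq hb hm ⊢
  have ht1 : 2000 ≤ t := by linarith
  have htp : 0 < t := by linarith
  obtain ⟨s, hs⟩ : ∃ s, s = t ^ (1 / 4 : ℝ) := ⟨_, rfl⟩
  rw [← hs] at hb ⊢
  have hs0 : 0 ≤ s := by rw [hs]; positivity
  have hs4 : s ^ 4 = t := by
    rw [hs, ← Real.rpow_natCast, ← Real.rpow_mul htp.le]
    norm_num
  have hs5 : 5 ≤ s := by
    by_contra hcon
    push Not at hcon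
    have : s ^ 4 ≤ 5 ^ 4 := pow_le_pow_left₀ hs0 hcon.le 4
    norm_num at this
    linarith
  have hst : s ≤ 0.01 * t := by
    have h1 : (5 : ℝ) ^ 3 ≤ s ^ 3 := pow_le_pow_left₀ (by norm_num) hs5 3
    have h2 : s * 5 ^ 3 ≤ s * s ^ 3 := mul_le_mul_of_nonneg_left h1 hs0
    have h3 : s * s ^ 3 = t := by rw [← hs4]; ring
    rw [h3] at h2
    linarith
  obtain ⟨k, hk⟩ : ∃ k : ℕ, k = ⌈s⌉₊ := ⟨_, rfl⟩
  have hk1 : s ≤ k := by rw [hk]; exact Nat.le_ceil _
  have hk2 : (k : ℝ) < s + 1 := by rw [hk]; exact Nat.ceil_lt_add_one hs0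
  have hk0 : (0 : ℝ) < k := by linarith
  have hkN : 0 < k := by exact_mod_cast hk0
  obtain ⟨p, hp⟩ : ∃ p : ℕ, p = q / k + 1 := ⟨_, rfl⟩
  have hpq : q ≤ p * k := by
    rw [hp, mul_comm]
    exact (Nat.lt_mul_div_succ q hkN).le
  have hpk : p * k ≤ q + k := by
    rw [hp, Nat.add_mul, one_mul]
    exact Nat.add_le_add_right (Nat.div_mul_le_self q k) k
  have hpkR : ((p * k : ℕ) : ℝ) ≤ q + k := by exact_mod_cast hpk
  have hp1 : (p : ℝ) ≤ t := by
    have h1 : p ≤ q + 1 := by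
      rw [hp]
      exact Nat.add_le_add_right (Nat.div_le_self q k) 1
    have h2 : (p : ℝ) ≤ q + 1 := by exact_mod_cast h1
    linarith
  have hk8 : t ≤ (k : ℝ) ^ 8 := by
    rw [← hs4]
    exact (pow_le_pow_left₀ hs0 hk1 4).trans (pow_le_pow_right₀ (by linarith) (by norm_num))
  let ks := List.replicate p k
  let F : List ℕ → Set ℤ := fun l => if Win k l ∧ ¬ Dv (b / 2) 0 ks l then ∅ else Set.univ
  let ρ : List ℕ → ℝ := fun l => 2 * (if Dv (b / 2) 0 ks l then 1 else 0) + 0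
  have hρ : ∀ l, 0 ≤ ρ l := by
    intro l
    show 0 ≤ 2 * (if Dv (b / 2) 0 ks l then (1 : ℝ) else 0) + 0
    split_ifs <;> norm_num
  have hG : Gf 20 (0.9 * t) ks
      (fun l A' => ∀ m : ℕ, (m : ℝ) ^ 16 ≤ Real.log A' → PB (F l) A' m (ρ l)) A := by
    refine gf_list (by linarith) p _ A hA (by rw [← ht]; linarith) (by rw [← ht]; exact hk8) ?_
    intro l hl hlen m' hm'
    have hA' : 0 < A * 3 ^ (p * k) / 2 ^ l.sum := by positivity
    by_cases hD : Dv (b / 2) 0 ks l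
    · have e2 : ρ l = 2 * 1 + 0 := by
        show 2 * (if Dv (b / 2) 0 ks l then (1 : ℝ) else 0) + 0 = _
        rw [if_pos hD]
      refine PB_mono hA' (ρ := 2) (by rw [e2]; norm_num) (PB_triv _ hA' ?_ hm')
      have h1 := win_sum k l hl
      rw [hlen] at h1
      obtain ⟨h2, h3⟩ := dec_bd h1
      rw [DK.TAIL.log_next hA, ← ht]
      linarith
    · have e1 : F l = ∅ := if_pos ⟨hl, hD⟩
      rw [e1]
      exact PB_empty hA' (hρ l) fun x _ _ hx => hx
  have hS := hcomp (0.9 * t) (by linarith) ks (3 * k)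
    (fun x hx => by rw [List.eq_of_mem_replicate hx]) F ρ hρ A hA hG m (by rw [← ht]; exact hm)
  have hlen : (ks.length : ℝ) = p := by simp [ks]
  have hks : ks.sum = p * k := by simp [ks]
  have hWE : WEf (3 * k) ks ρ ≤
      4 * Real.exp (2 * lam ^ 2 * (q + 2 * s + 1) - lam * b / 2) := by
    have h1 := WEf_affine (3 * k) ks (fun l => if Dv (b / 2) 0 ks l then (1 : ℝ) else 0) 2 0 le_rfl
    have h2 := hW (3 * k) ks lam (b / 2) 0 hlam hlam1
    rw [hks] at h2
    have h5 : ∀ y : ℝ, y = 0 → Real.exp (2 * lam ^ 2 * ((p * k : ℕ) : ℝ) + lam * (y - b / 2)) ≤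
        Real.exp (2 * lam ^ 2 * (q + 2 * s + 1) - lam * b / 2) := by
      intro y hy
      apply Real.exp_le_exp.2
      have h6 := mul_le_mul_of_nonneg_left (show ((p * k : ℕ) : ℝ) ≤ q + 2 * s + 1 by linarith)
        (show 0 ≤ 2 * lam ^ 2 by positivity)
      rw [hy]
      linarith
    have h7 := h5 0 rfl
    have h8 := h5 (-0) neg_zero
    have h3 : WEf (3 * k) ks ρ =
      WEf (3 * k) ks (fun l => 2 * (if Dv (b / 2) 0 ks l then (1 : ℝ) else 0) + 0) := rfl
    rw [h3]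
    linarith
  have herr : (ks.length : ℝ) * (C / (0.9 * t) ^ 3) ≤ 2 * C / t ^ 2 := by
    rw [hlen]
    calc (p : ℝ) * (C / (0.9 * t) ^ 3) ≤ t * (C / (0.9 * t) ^ 3) :=
          mul_le_mul_of_nonneg_right hp1 (by positivity)
      _ = (1 / (0.9 ^ 3)) * (C / t ^ 2) := by
          field_simp
      _ ≤ 2 * (C / t ^ 2) := mul_le_mul_of_nonneg_right (by norm_num) (by positivity)
      _ = 2 * C / t ^ 2 := by ring
  refine PB_sub (S' := SEf d ks F) ?_ (PB_mono hA (by linarith) hS)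
  rintro M _ _ ⟨j, hj, hjb⟩
  apply hM ks F M
  by_cases hgood : Win k (stf ks fun j => ex d ((Sy d)^[j] M)) ∧
      ¬ Dv (b / 2) 0 ks (stf ks fun j => ex d ((Sy d)^[j] M))
  · exfalso
    have := path_bound k (b / 2) p (fun j => ex d ((Sy d)^[j] M)) 0 hgood.1 hgood.2 j
      (hj.trans hpq)
    rw [Yz_cast d] at hjb
    linarith
  · have e : F (stf ks fun j => ex d ((Sy d)^[j] M)) = Set.univ := if_neg hgood
    rw [e]
    exact Set.mem_univ _


end

section

open Pool.Agent.TH977.IP (Sy ex stf key_size parts parts_length parts_sum)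
open Pool.Agent.H319R2.Lln (mu)
open Pool.Agent.H55.DK (WEf Gf)
open Pool.Agent.H55.DK.PULL (WEf_const_le div_N gf_list)

theorem pull0 (d : ℤ) (hC : S_COMP d) (hM : S_MEM d) : S_PULL d := by
  intro κ η hκ hκ1 hη
  obtain ⟨p, hpdef⟩ : ∃ p : ℕ, p = ⌈64 / κ⌉₊ := ⟨_, rfl⟩
  have hp : 64 / κ ≤ p := by rw [hpdef]; exact Nat.le_ceil _
  have hp0 : (0 : ℝ) < p := lt_of_lt_of_le (by positivity) hp
  have hp0N : 0 < p := by exact_mod_cast hp0
  have hp1 : 1 ≤ p := hp0N
  have hp64 : (64 : ℝ) ≤ p := by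
    refine le_trans ?_ hp
    rw [le_div_iff₀ hκ]
    linarith
  obtain ⟨N, hNdef⟩ : ∃ N : ℕ, N = max 20 ⌈30 / κ⌉₊ := ⟨_, rfl⟩
  have hN20 : 20 ≤ N := by rw [hNdef]; exact le_max_left _ _
  have hN : 30 / κ ≤ N := by
    refine (Nat.le_ceil _).trans ?_
    have : ⌈30 / κ⌉₊ ≤ N := by rw [hNdef]; exact le_max_right _ _
    exact_mod_cast this
  obtain ⟨C, t0, hCpos, ht0, hcomp⟩ := hC N hN20
  -- the size of L
  obtain ⟨L0, hL0def⟩ : ∃ L0 : ℝ, L0 = 2 * t0 / κ + 16 * p / κ + 2 * (2 * (p : ℝ)) ^ 8 + p * C * 8 / (κ ^ 3 * η) + 1 :=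
    ⟨_, rfl⟩
  have hη' : 0 < κ ^ 3 * η := by positivity
  refine ⟨L0, ?_⟩
  intro L hL S ρ hρ K hK hKL hPB A hA hAL
  have q1 : 0 ≤ 2 * t0 / κ := by positivity
  have q2 : 0 ≤ 16 * p / κ := by positivity
  have q3 : 0 ≤ 2 * (2 * (p : ℝ)) ^ 8 := by positivity
  have q4 : 0 ≤ p * C * 8 / (κ ^ 3 * η) := by positivity
  have hLa : 2 * t0 / κ ≤ L := by linarith
  have hLb : 16 * p / κ ≤ L := by linarith
  have hLc : 2 * (2 * (p : ℝ)) ^ 8 ≤ L := by linarith
  have hLd : p * C * 8 / (κ ^ 3 * η) ≤ L := by linarith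
  have hL1 : 1 ≤ L := by linarith
  have hLpos : 0 < L := by linarith
  have hκL : 0 < κ * L := by positivity
  have hκL1 : κ * L ≤ L := by nlinarith
  rcases hK with hK0 | hKs
  · subst hK0
    have h1 : {M : ℤ | (Sy d)^[0] M ∈ S} = S := by
      ext x
      simp
    rw [h1]
    refine PB_mono hA (by linarith : ρ ≤ ρ + η) ?_
    apply hPB A hA
    · simp only [Nat.cast_zero, mul_zero, sub_zero]
      linarith
    · obtain ⟨h2, h3⟩ := abs_le.1 hAL
      simp only [Nat.cast_zero]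
      norm_num
      linarith
  · have hKpos : 0 < K := by
      have : 0 < Real.sqrt L := Real.sqrt_pos.2 hLpos
      have : (0 : ℝ) < K := by linarith
      exact_mod_cast this
    obtain ⟨hmu1, hmu2⟩ := mu_bounds
    have hmu : 0 < mu := by linarith
    have hKL' : (K : ℝ) ≤ (1 - κ) * L / (2 * mu) := by
      rw [le_div_iff₀ (by positivity)]
      linarith
    have hK0R : (0 : ℝ) ≤ K := Nat.cast_nonneg K
    have hK4 : (K : ℝ) ≤ 4 * L := by
      have h3 : 0.28 * (K : ℝ) ≤ 2 * mu * K := mul_le_mul_of_nonneg_right (by linarith) hK0R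
      have h4 : (1 - κ) * L ≤ L := by nlinarith
      linarith
    set ks := parts p K with hks
    have hksum : ks.sum = K := parts_sum hp1 K
    have hklen : ks.length = p := parts_length hp1 K
    have hmem : ∀ k ∈ ks, 2 * L ≤ (k : ℝ) ^ 8 ∧ (k : ℝ) ≤ κ * L / 8 := by
      intro k hk
      have hk12 : K / p ≤ k ∧ k ≤ K / p + K % p := by
        rw [hks] at hk
        unfold parts at hk
        rw [List.mem_cons, List.mem_replicate] at hk
        omega
      obtain ⟨hk1, hk2⟩ := hk12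
      have hk1R : ((K / p : ℕ) : ℝ) ≤ k := by exact_mod_cast hk1
      have hk2R : (k : ℝ) ≤ ((K / p : ℕ) : ℝ) + ((K % p : ℕ) : ℝ) := by exact_mod_cast hk2
      have h1 : (K : ℝ) < p * (((K / p : ℕ) : ℝ) + 1) := by
        exact_mod_cast Nat.lt_mul_div_succ K hp0N
      have h2 : ((K / p : ℕ) : ℝ) ≤ (K : ℝ) / p := Nat.cast_div_le
      have h3 : ((K % p : ℕ) : ℝ) ≤ p := by exact_mod_cast (Nat.mod_lt K hp0N).le
      have hpκ : 64 ≤ p * κ := by rwa [div_le_iff₀ hκ] at hp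
      have hLb' : 16 * p ≤ L * κ := by rwa [div_le_iff₀ hκ] at hLb
      constructor
      · -- the lower bound
        set r := Real.sqrt L with hr
        have hrsq : r ^ 2 = L := Real.sq_sqrt hLpos.le
        have hr0 : 0 ≤ r := Real.sqrt_nonneg _
        have h2p : (2 * (p : ℝ)) ≤ r := by
          apply Real.le_sqrt_of_sq_le
          have : (2 * (p : ℝ)) ^ 2 ≤ (2 * (p : ℝ)) ^ 8 := by
            apply pow_le_pow_right₀ _ (by norm_num)
            linarith
          have h8 : 0 ≤ (2 * (p : ℝ)) ^ 8 := by positivity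
          linarith
        have hk3 : r ≤ 2 * p * k := by
          have h5 : (K : ℝ) < p * ((k : ℝ) + 1) := lt_of_lt_of_le h1 (by
            apply mul_le_mul_of_nonneg_left _ hp0.le
            linarith)
          nlinarith
        have h6 : r ^ 8 ≤ (2 * p * k) ^ 8 := pow_le_pow_left₀ hr0 hk3 8
        have h7 : r ^ 8 = L ^ 4 := by rw [← hrsq, ← pow_mul]
        rw [h7, mul_pow] at h6
        have h9 : 0 < (2 * (p : ℝ)) ^ 8 := by positivity
        -- 2 L (2p)^8 ≤ L^2 ≤ L^4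
        have h10 : 2 * L * (2 * (p : ℝ)) ^ 8 ≤ L ^ 4 := by
          have h11 : 2 * L * (2 * (p : ℝ)) ^ 8 ≤ L ^ 2 := by nlinarith
          have h12 : L ^ 2 ≤ L ^ 4 := pow_le_pow_right₀ hL1 (by norm_num)
          linarith
        have h13 : (2 * (p : ℝ)) ^ 8 * (2 * L) ≤ (2 * (p : ℝ)) ^ 8 * (k : ℝ) ^ 8 := by
          calc (2 * (p : ℝ)) ^ 8 * (2 * L) = 2 * L * (2 * (p : ℝ)) ^ 8 := by ring
            _ ≤ L ^ 4 := h10
            _ ≤ _ := h6
        exact le_of_mul_le_mul_left h13 h9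
      · have h4 : (K : ℝ) / p ≤ κ * L / 16 := by
          rw [div_le_iff₀ hp0]
          nlinarith
        nlinarith
    have hτ : t0 ≤ κ * L / 2 := by
      rw [div_le_iff₀ hκ] at hLa
      linarith
    have hG : Gf N (κ * L / 2) ks (fun l A' => ∀ m : ℕ, (m : ℝ) ^ 16 ≤ Real.log A' → PB S A' m ρ) A := by
      apply gf_list hκ hκ1 hLpos hN le_rfl ks 0 A _ hA hmem
      · rw [hksum]
        simpa using hKL'
      · simpa using hAL
      · intro l A' hA' hl
        rw [hksum, zero_add] at hl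
        apply hPB A' hA'
        have := div_N hκ hκ1 hLpos hN hKL'
        linarith
    have h := hcomp (κ * L / 2) hτ ks (3 * ks.sum)
      (by
        intro k hk
        have := List.single_le_sum (l := ks) (fun _ _ => Nat.zero_le _) k hk
        omega) (fun _ => S) (fun _ => ρ) (fun _ => hρ) A hA hG 0 (by
        obtain ⟨h2, h3⟩ := abs_le.1 hAL
        norm_num
        linarith)
    have hsub : ∀ x : ℤ, A ≤ (x : ℝ) → (x : ℝ) < 2 * A → x ∈ {M : ℤ | (Sy d)^[K] M ∈ S} →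
        x ∈ SEf d ks (fun _ => S) := by
      intro x _ _ hx
      apply hM ks _ x
      rw [hksum]
      exact hx
    refine PB_sub hsub (PB_mono hA ?_ h)
    have h1 := WEf_const_le (3 * ks.sum) ks hρ
    have h2 : (ks.length : ℝ) * (C / (κ * L / 2) ^ 3) ≤ η := by
      rw [hklen]
      rw [div_le_iff₀ hη'] at hLd
      have h3 : (p : ℝ) * (C / (κ * L / 2) ^ 3) = p * C * 8 / (κ ^ 3 * L ^ 3) := by
        field_simp
        norm_num
      rw [h3, div_le_iff₀ (by positivity)]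
      have h4 : L ≤ L ^ 3 := by
        calc L = L ^ 1 := (pow_one L).symm
          _ ≤ L ^ 3 := pow_le_pow_right₀ hL1 (by norm_num)
      have h5 : L * (κ ^ 3 * η) ≤ L ^ 3 * (κ ^ 3 * η) := mul_le_mul_of_nonneg_right h4 hη'.le
      linarith
    linarith


end

end CHAIN

theorem stage (d : ℤ) (hd : Odd d) (hd3 : IsCoprime d 3) : S_STAGE d :=
  CHAIN.stage0 d (CHAIN.comp d hd hd3 (CHAIN.err d)) (CHAIN.mem d hd) DK.WMAX.main

theorem pull (d : ℤ) (hd : Odd d) (hd3 : IsCoprime d 3) : S_PULL d :=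
  CHAIN.pull0 d (CHAIN.comp d hd hd3 (CHAIN.err d)) (CHAIN.mem d hd)

end Pool.Agent.H55.BG
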