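import Pool.Agent.H55.BG.Stm

/-!
# Project BG: the trajectory is close to the step function of the block sums (adapted from `DK/DET.lean`)
-/

set_option autoImplicit false

namespace Pool.Agent.H55.BG.DETT

open Finset Filter Topology MeasureTheory ProbabilityTheory
open Pool.Agent.TH977.IP (Sy ex Sy_spec)
open Pool.Agent.Results.MP_f7abf1_nt.BlockLaw (oddCount HasDensity)
open Pool.Agent.H55.UL (slow log_tendsto sqrt_diff log43_lo log43_hi log2_hi log43_eq)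
open Pool.Agent.H55.DK (stp)
open Pool.Agent.H55.DK.DET (bt stp_eq scaled)

theorem Yg_zero (d : ℤ) (m : ℕ) : Yg d m 0 = 0 := by
  unfold Yg Sg
  simp

theorem osc {d : ℤ} {m r b : ℕ} {w : ℝ} (hb : 0 < b) (hw : 0 ≤ w) (hctl : Ct d w r b m) {j : ℕ} (hj : j ≤ r * b) :
    |((Yg d m j : ℤ) : ℝ) - ((Yg d m (bt r b j * b) : ℤ) : ℝ)| ≤ w := by
  unfold bt
  rcases hj.lt_or_eq with h | h
  · have h2 : j / b < r := by rwa [Nat.div_lt_iff_lt_mul hb]
    rw [min_eq_left h2.le]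
    have h3 := hctl (j / b) h2 (j % b) (Nat.mod_lt j hb).le
    rw [Nat.div_add_mod' j b] at h3
    push_cast at h3
    exact h3
  · subst h
    rw [Nat.mul_div_cancel _ hb, min_self, sub_self, abs_zero]
    exact hw

theorem grid {d : ℤ} {m r b : ℕ} {w : ℝ} (hctl : Ct d w r b m) (i t : ℕ) (h : i + t ≤ r) :
    |((Yg d m ((i + t) * b) : ℤ) : ℝ) - ((Yg d m (i * b) : ℤ) : ℝ)| ≤ t * w := by
  induction t with
  | zero => simp
  | succ t ih =>
    have h4 := ih (by omega)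
    have h5 := hctl (i + t) (by omega) b le_rfl
    rw [show (i + t) * b + b = (i + (t + 1)) * b by ring] at h5
    push_cast at h5 ⊢
    have h6 : ((Yg d m ((i + (t + 1)) * b) : ℤ) : ℝ) - ((Yg d m (i * b) : ℤ) : ℝ) =
      (((Yg d m ((i + (t + 1)) * b) : ℤ) : ℝ) - ((Yg d m ((i + t) * b) : ℤ) : ℝ)) +
      (((Yg d m ((i + t) * b) : ℤ) : ℝ) - ((Yg d m (i * b) : ℤ) : ℝ)) := by ring
    rw [h6]
    refine (abs_add_le _ _).trans ?_
    linarith

/-- two grid points -/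
theorem grid2 {d : ℤ} {m r b : ℕ} {w : ℝ} (hw : 0 ≤ w) (hctl : Ct d w r b m) {i i' : ℕ} (h : i ≤ r) (h' : i' ≤ r) (h1 : i ≤ i' + 1)
    (h2 : i' ≤ i + 1) : |((Yg d m (i * b) : ℤ) : ℝ) - ((Yg d m (i' * b) : ℤ) : ℝ)| ≤ w := by
  rcases lt_trichotomy i i' with h3 | h3 | h3
  · obtain rfl : i' = i + 1 := by omega
    rw [abs_sub_comm]
    have := grid hctl i 1 h'
    simpa using this
  · subst h3
    simpa using hw
  · obtain rfl : i = i' + 1 := by omega
    have := grid hctl i' 1 h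
    simpa using this

theorem bound {d : ℤ} {m r b : ℕ} {w : ℝ} (hb : 0 < b) (hw : 0 ≤ w) (hctl : Ct d w r b m) {j : ℕ} (hj : j ≤ r * b) :
    |((Yg d m j : ℤ) : ℝ)| ≤ (r + 1) * w := by
  have h1 := osc hb hw hctl hj
  have h2 := grid hctl 0 (bt r b j) (by rw [zero_add]; exact min_le_right _ _)
  rw [zero_add, zero_mul, Yg_zero] at h2
  have h3 : ((bt r b j : ℕ) : ℝ) ≤ r := by exact_mod_cast min_le_right _ _
  have h4 : ((bt r b j : ℕ) : ℝ) * w ≤ r * w := mul_le_mul_of_nonneg_right h3 hw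
  have h5 : ((Yg d m j : ℤ) : ℝ) = (((Yg d m j : ℤ) : ℝ) - ((Yg d m (bt r b j * b) : ℤ) : ℝ)) +
    (((Yg d m (bt r b j * b) : ℤ) : ℝ) - ((0 : ℤ) : ℝ)) := by push_cast; ring
  rw [h5]
  refine (abs_add_le _ _).trans ?_
  linarith

theorem incr {d : ℤ} {m r b : ℕ} {w : ℝ} (hb : 0 < b) (hw : 0 ≤ w) (hctl : Ct d w r b m) {j : ℕ} (hj : j + 1 ≤ r * b) :
    |((Yg d m (j + 1) - Yg d m j : ℤ) : ℝ)| ≤ 3 * w := by
  have h1 := osc hb hw hctl (show j ≤ r * b by omega)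
  have h2 := osc hb hw hctl hj
  have h3 : |((Yg d m (bt r b (j + 1) * b) : ℤ) : ℝ) - ((Yg d m (bt r b j * b) : ℤ) : ℝ)| ≤ w := by
    have a1 : j / b ≤ (j + 1) / b := Nat.div_le_div_right (Nat.le_succ j)
    have a2 : (j + 1) / b ≤ j / b + 1 := by
      have : (j + 1) / b ≤ (j + b) / b := Nat.div_le_div_right (by omega)
      rwa [Nat.add_div_right _ hb] at this
    apply grid2 hw hctl (min_le_right _ _) (min_le_right _ _) <;> omega
  push_cast
  have h6 : ((Yg d m (j + 1) : ℤ) : ℝ) - ((Yg d m j : ℤ) : ℝ) =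
      (((Yg d m (j + 1) : ℤ) : ℝ) - ((Yg d m (bt r b (j + 1) * b) : ℤ) : ℝ)) +
      ((((Yg d m (bt r b (j + 1) * b) : ℤ) : ℝ) - ((Yg d m (bt r b j * b) : ℤ) : ℝ)) +
      (((Yg d m (bt r b j * b) : ℤ) : ℝ) - ((Yg d m j : ℤ) : ℝ))) := by ring
  rw [h6]
  rw [abs_sub_comm] at h1
  refine (abs_add_le _ _).trans ?_
  have := abs_add_le (((Yg d m (bt r b (j + 1) * b) : ℤ) : ℝ) - ((Yg d m (bt r b j * b) : ℤ) : ℝ))
      (((Yg d m (bt r b j * b) : ℤ) : ℝ) - ((Yg d m j : ℤ) : ℝ))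
  linarith

/-- one step -/
theorem one_step {d x : ℤ} (hd : Odd d) (hd3 : IsCoprime d 3) (hx : Odd x) {B : ℝ} (hB : 1 ≤ B)
    (h : |(d : ℝ)| * B ≤ x) : (0 : ℝ) < x ∧ 0 < ((Sy d x : ℤ) : ℝ) ∧
    |Real.log ((Sy d x : ℤ) : ℝ) - (Real.log x + Real.log 3 - (ex d x : ℕ) * Real.log 2)| ≤ 2 / (3 * B) := by
  have hd1 : (1 : ℝ) ≤ |(d : ℝ)| := by
    have h0 : d ≠ 0 := by
      rintro rfl
      exact absurd hd (by decide)
    have h1 : 1 ≤ |d| := Int.one_le_abs h0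
    exact_mod_cast h1
  have hx0 : (0 : ℝ) < x := by
    have : 0 < |(d : ℝ)| * B := by positivity
    linarith
  obtain ⟨_, _, h3⟩ := Sy_spec hd hd3 hx
  have h3' : 3 * (x : ℝ) + d = 2 ^ ex d x * ((Sy d x : ℤ) : ℝ) := by exact_mod_cast h3
  set u : ℝ := (d : ℝ) / (3 * x) with hu
  have hu1 : |u| ≤ 1 / (3 * B) := by
    rw [hu, abs_div, abs_of_pos (by positivity : (0 : ℝ) < 3 * x), div_le_div_iff₀ (by positivity) (by positivity)]
    linarith
  have hu2 : |u| ≤ 1 / 3 := by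
    refine hu1.trans ?_
    apply one_div_le_one_div_of_le (by norm_num)
    linarith
  obtain ⟨u1, u2⟩ := abs_le.1 hu2
  have h1u : 0 < 1 + u := by linarith
  have e1 : 3 * (x : ℝ) + d = 3 * x * (1 + u) := by
    rw [hu]
    field_simp
  have hpos : 0 < 3 * (x : ℝ) + d := by rw [e1]; positivity
  have hS : 0 < ((Sy d x : ℤ) : ℝ) := by
    rw [h3'] at hpos
    exact pos_of_mul_pos_right hpos (by positivity)
  refine ⟨hx0, hS, ?_⟩
  have e2 : Real.log (3 * (x : ℝ) + d) = Real.log 3 + Real.log x + Real.log (1 + u) := by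
    rw [e1, Real.log_mul (by positivity) h1u.ne', Real.log_mul (by norm_num) hx0.ne']
  have e3 : Real.log (3 * (x : ℝ) + d) = (ex d x : ℕ) * Real.log 2 + Real.log ((Sy d x : ℤ) : ℝ) := by
    rw [h3', Real.log_mul (by positivity) hS.ne', Real.log_pow]
  have e4 : Real.log ((Sy d x : ℤ) : ℝ) - (Real.log x + Real.log 3 - (ex d x : ℕ) * Real.log 2) = Real.log (1 + u) := by
    linarith
  rw [e4]
  have l1 : Real.log (1 + u) ≤ u := by
    have := Real.log_le_sub_one_of_pos h1u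
    linarith
  have l2 : -(2 * |u|) ≤ Real.log (1 + u) := by
    have h5 := Real.one_sub_inv_le_log_of_pos h1u
    have h6 : -(2 * |u|) ≤ 1 - (1 + u)⁻¹ := by
      have h7 : 1 - (1 + u)⁻¹ = u / (1 + u) := by
        field_simp
        ring
      rw [h7, le_div_iff₀ h1u]
      have h8 := neg_abs_le u
      have h9 := abs_nonneg u
      nlinarith
    linarith
  have h5 : 2 / (3 * B) = 2 * (1 / (3 * B)) := by ring
  rw [h5, abs_le]
  have := le_abs_self u
  have := abs_nonneg u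
  constructor <;> linarith

/-- logarithms of the odd terms -/
theorem log_term {d : ℤ} (hd : Odd d) (hd3 : IsCoprime d 3) {m : ℕ} (hm : m % 2 = 1) {B : ℝ} (hB : 1 ≤ B) (i : ℕ)
    (h : ∀ i' < i, |(d : ℝ)| * B ≤ (((Sy d)^[i'] (m : ℤ) : ℤ) : ℝ)) : Odd ((Sy d)^[i] (m : ℤ)) ∧
    (0 : ℝ) < (((Sy d)^[i] (m : ℤ) : ℤ) : ℝ) ∧
    |Real.log (((Sy d)^[i] (m : ℤ) : ℤ) : ℝ) - (Real.log m + i * Real.log 3 - (Sg d m i : ℕ) * Real.log 2)| ≤
      i * (2 / (3 * B)) := by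
  induction i with
  | zero =>
    have h1 : Odd (m : ℤ) := by exact_mod_cast Nat.odd_iff.2 hm
    refine ⟨h1, ?_, ?_⟩
    · simp only [Function.iterate_zero, id_eq]
      have : 0 < m := by omega
      exact_mod_cast this
    · simp [Sg]
  | succ i ih =>
    obtain ⟨i1, i2, i3⟩ := ih (fun i' hi' => h i' (by omega))
    obtain ⟨s1, s2, s3⟩ := one_step hd hd3 i1 hB (h i (by omega))
    rw [Function.iterate_succ_apply']
    refine ⟨(Sy_spec hd hd3 i1).2.1, s2, ?_⟩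
    have e : Sg d m (i + 1) = Sg d m i + ex d ((Sy d)^[i] (m : ℤ)) := by
      unfold Sg wt
      rw [Finset.sum_range_succ]
    rw [e]
    push_cast
    have a1 := abs_le.1 i3
    have a2 := abs_le.1 s3
    rw [abs_le]
    constructor <;> nlinarith [a1.1, a1.2, a2.1, a2.2]

/-- the odd terms are large -/
theorem big {d : ℤ} (hd : Odd d) (hd3 : IsCoprime d 3) {m r b : ℕ} {w M : ℝ} (hm : m % 2 = 1) (hb : 0 < b) (hr : 0 < r)
    (hw : 0 ≤ w) (hctl : Ct d w r b m)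
    (hM : (r + 1) * w ≤ M)
    (h : Real.log (|(d : ℝ)| * (r * b)) ≤ Real.log m - r * b * Real.log (4 / 3) - M - 1) (i : ℕ) :
    i ≤ r * b → |(d : ℝ)| * (r * b) ≤ (((Sy d)^[i] (m : ℤ) : ℤ) : ℝ) := by
  induction i using Nat.strong_induction_on with
  | _ i ih =>
    intro hi
    have hrb1 : (1 : ℝ) ≤ (r : ℝ) * b := by exact_mod_cast Nat.mul_pos hr hb
    obtain ⟨_, hpos, h0⟩ := log_term hd hd3 hm hrb1 i (fun i' hi' => ih i' hi' (by omega))
    have hS : ((Sg d m i : ℕ) : ℝ) = 2 * i - ((Yg d m i : ℤ) : ℝ) := by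
      unfold Yg
      push_cast
      ring
    rw [hS] at h0
    have h1 := abs_le.1 ((bound hb hw hctl hi).trans hM)
    have h2 : Real.log (4 / 3) = 2 * Real.log 2 - Real.log 3 := log43_eq
    have hl2 : Real.log 2 ≤ 1 := log2_hi
    have hl2' : 0 ≤ Real.log 2 := Real.log_nonneg (by norm_num)
    have hq := log43_lo
    have hM0 : 0 ≤ M := by
      have : 0 ≤ ((r : ℝ) + 1) * w := by positivity
      linarith
    have hirb : (i : ℝ) ≤ r * b := by exact_mod_cast hi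
    have h5 : (i : ℝ) * Real.log (4 / 3) ≤ r * b * Real.log (4 / 3) := by
      apply mul_le_mul_of_nonneg_right hirb (by linarith)
    have h6 : -M ≤ ((Yg d m i : ℤ) : ℝ) * Real.log 2 := by nlinarith
    have h9 : (i : ℝ) * (2 / (3 * (r * b))) ≤ 1 := by
      calc (i : ℝ) * (2 / (3 * (r * b))) ≤ (r * b) * (2 / (3 * (r * b))) := by gcongr
        _ = 2 / 3 := by field_simp
        _ ≤ 1 := by norm_num
    have h4 : Real.log (|(d : ℝ)| * (r * b)) ≤ Real.log (((Sy d)^[i] (m : ℤ) : ℤ) : ℝ) := by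
      have h7 : (i : ℝ) * Real.log (4 / 3) = 2 * i * Real.log 2 - i * Real.log 3 := by rw [h2]; ring
      have h8 : (2 * (i : ℝ) - ((Yg d m i : ℤ) : ℝ)) * Real.log 2 = 2 * i * Real.log 2 - ((Yg d m i : ℤ) : ℝ) * Real.log 2 := by
        ring
      rw [h8] at h0
      have h10 := (abs_le.1 h0).1
      linarith
    have hd1 : (1 : ℝ) ≤ |(d : ℝ)| := by
      have h0 : d ≠ 0 := by
        rintro rfl
        exact absurd hd (by decide)
      have h1 : 1 ≤ |d| := Int.one_le_abs h0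
      exact_mod_cast h1
    exact (Real.log_le_log_iff (by positivity) hpos).1 h4

/-- the deterministic comparison -/
theorem comp {d : ℤ} (hD : S_CDT d) {m v r G b : ℕ} {w M D L s : ℝ} (hm : m % 2 = 1) (hb : 0 < b) (hr : 0 < r) (hw : 0 ≤ w)
    (hctl : Ct d w r b m) (hM : (r + 1) * w ≤ M)
    (hL : |Real.log ((2 ^ v * m : ℕ) : ℝ) - L| ≤ D) (hb1 : |L / Real.log (4 / 3) - G * b| ≤ G)
    (hs0 : 0 ≤ s) (hs1 : s ≤ 1) (hlarge : ∀ i ≤ r * b, |(d : ℝ)| * (r * b) ≤ (((Sy d)^[i] (m : ℤ) : ℤ) : ℝ))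
    (hend : s * (2 * Real.log ((2 ^ v * m : ℕ) : ℝ) / Real.log (4 / 3)) + M + 2 ≤ 2 * (r * b))
    (hbig : (v + 3 + 2 * M) / 2 + 1 / 2 + 4 * D + G ≤ b) :
    |devG d (2 ^ v * m) ⌊s * (2 * Real.log ((2 ^ v * m : ℕ) : ℝ) / Real.log (4 / 3))⌋₊ - Real.log 3 / 2 *
      ((Yg d m (min ⌊s * G⌋₊ r * b) : ℤ) : ℝ)| ≤ 5 * w + (v + 10) := by
  have hc1 : Real.log 3 / 2 ≤ 1 := by
    have h1 : Real.log 3 ≤ Real.log (2 ^ (2 : ℕ)) := Real.log_le_log (by norm_num) (by norm_num)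
    rw [Real.log_pow] at h1
    have := Real.log_two_lt_d9
    push_cast at h1
    linarith
  have hc0 : 0 ≤ Real.log 3 / 2 := by
    have := Real.log_nonneg (show (1 : ℝ) ≤ 3 by norm_num)
    linarith
  set c : ℝ := Real.log 3 / 2 with hcd
  have hqlo := log43_lo
  have hqhi := log43_hi
  set q := Real.log (4 / 3) with hq
  have hqpos : 0 < q := by linarith
  set ln := Real.log ((2 ^ v * m : ℕ) : ℝ) with hln
  have hln0 : 0 ≤ ln := Real.log_natCast_nonneg _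
  have hv : (0 : ℝ) ≤ v := Nat.cast_nonneg v
  have hG : (0 : ℝ) ≤ G := Nat.cast_nonneg G
  obtain ⟨J, hJ⟩ : ∃ J, r * b = J + 1 := ⟨r * b - 1, by have := Nat.mul_pos hr hb; omega⟩
  have hJR : (r : ℝ) * b = J + 1 := by exact_mod_cast hJ
  have hYM : ∀ j ≤ r * b, |((Yg d m j : ℤ) : ℝ)| ≤ M := fun j hj => (bound hb hw hctl hj).trans hM
  have hM0 : 0 ≤ M := (abs_nonneg _).trans (hYM 0 (Nat.zero_le _))
  set x : ℝ := s * (2 * ln / q) with hx
  have hx0 : 0 ≤ x := by positivity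
  set k := ⌊x⌋₊ with hkd
  have hkx : (k : ℝ) ≤ x := Nat.floor_le hx0
  have hkx' : x < k + 1 := Nat.lt_floor_add_one _
  have hkv : k ≤ v + Sg d m J := by
    have h1 : ((Sg d m J : ℕ) : ℝ) = 2 * J - ((Yg d m J : ℤ) : ℝ) := by
      unfold Yg
      push_cast
      ring
    have h2 := (abs_le.1 (hYM J (by omega))).2
    have h3 : (k : ℝ) ≤ v + ((Sg d m J : ℕ) : ℝ) := by
      rw [h1]
      rw [hJR] at hend
      linarith
    exact_mod_cast h3
  obtain ⟨j, hjJ, h1, h2⟩ := hD v m J hm (fun i hi => by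
    have h3 := hlarge i (by omega)
    have h4 : |(d : ℝ)| * J ≤ |(d : ℝ)| * (r * b) := by
      apply mul_le_mul_of_nonneg_left _ (abs_nonneg _)
      rw [hJR]
      linarith
    have h5 := h4.trans h3
    exact_mod_cast h5) k hkv
  have hinc := incr hb hw hctl (show j + 1 ≤ r * b by omega)
  have h3 : |devG d (2 ^ v * m) k - c * (Yg d m j : ℤ)| ≤ 3 * w + (v + 10) := h1.trans (add_le_add hinc le_rfl)
  -- the position
  have hpos : |(j : ℝ) - s * G * b| ≤ b := by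
    have a1 : |(k : ℝ) - 2 * j| ≤ v + 3 + 2 * M := by
      refine h2.trans ?_
      have := hYM j (by omega)
      have := hYM (j + 1) (by omega)
      linarith
    have a2 : |(k : ℝ) - x| ≤ 1 := by
      rw [abs_le]
      constructor <;> linarith
    have a3 : |x / 2 - s * (L / q)| ≤ 4 * D := by
      have e1 : x / 2 - s * (L / q) = s * ((ln - L) / q) := by
        rw [hx]
        field_simp
      rw [e1, abs_mul, abs_of_nonneg hs0]
      have h6 : |(ln - L) / q| ≤ 4 * D := by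
        rw [abs_div, abs_of_pos hqpos, div_le_iff₀ hqpos]
        have h7 : 0 ≤ D := (abs_nonneg _).trans hL
        nlinarith
      have h7 : 0 ≤ |(ln - L) / q| := abs_nonneg _
      nlinarith
    have a4 : |s * (L / q) - s * (G * b)| ≤ G := by
      rw [← mul_sub, abs_mul, abs_of_nonneg hs0]
      have h6 : 0 ≤ |L / q - G * b| := abs_nonneg _
      nlinarith
    have b1 := abs_le.1 a1
    have b2 := abs_le.1 a2
    have b3 := abs_le.1 a3
    have b4 := abs_le.1 a4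
    rw [abs_le]
    constructor <;> linarith
  have hbR : (0 : ℝ) < b := by exact_mod_cast hb
  have hidx : j / b ≤ ⌊s * G⌋₊ + 1 ∧ ⌊s * G⌋₊ ≤ j / b + 1 := by
    have hsG0 : 0 ≤ s * G := by positivity
    have c1 := abs_le.1 hpos
    constructor
    · have h4 : ((j / b : ℕ) : ℝ) ≤ (j : ℝ) / b := Nat.cast_div_le
      have h5 : (j : ℝ) / b ≤ s * G + 1 := by
        rw [div_le_iff₀ hbR]
        linarith
      have h6 : s * G < ⌊s * G⌋₊ + 1 := Nat.lt_floor_add_one _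
      have h7 : ((j / b : ℕ) : ℝ) < ((⌊s * G⌋₊ + 2 : ℕ) : ℝ) := by
        push_cast
        linarith
      have : j / b < ⌊s * G⌋₊ + 2 := by exact_mod_cast h7
      omega
    · have h4 : (⌊s * G⌋₊ : ℝ) ≤ s * G := Nat.floor_le hsG0
      have h5 : s * G ≤ (j : ℝ) / b + 1 := by
        rw [← sub_le_iff_le_add, le_div_iff₀ hbR]
        linarith
      have h6 : (j : ℝ) / b < ((j / b : ℕ) : ℝ) + 1 := by
        rw [div_lt_iff₀ hbR]
        have : j < (j / b + 1) * b := by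
          have h8 := Nat.div_add_mod j b
          have h9 := Nat.mod_lt j hb
          nlinarith
        exact_mod_cast this
      have h7 : ((⌊s * G⌋₊ : ℕ) : ℝ) < ((j / b + 2 : ℕ) : ℝ) := by
        push_cast
        linarith
      have : ⌊s * G⌋₊ < j / b + 2 := by exact_mod_cast h7
      omega
  have hY : |((Yg d m j : ℤ) : ℝ) - ((Yg d m (min ⌊s * G⌋₊ r * b) : ℤ) : ℝ)| ≤ 2 * w := by
    have h4 := osc hb hw hctl (show j ≤ r * b by omega)
    have h5 : |((Yg d m (bt r b j * b) : ℤ) : ℝ) - ((Yg d m (min ⌊s * G⌋₊ r * b) : ℤ) : ℝ)| ≤ w := by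
      unfold bt
      apply grid2 hw hctl (min_le_right _ _) (min_le_right _ _) <;> omega
    have h6 : ((Yg d m j : ℤ) : ℝ) - ((Yg d m (min ⌊s * G⌋₊ r * b) : ℤ) : ℝ) =
      (((Yg d m j : ℤ) : ℝ) - ((Yg d m (bt r b j * b) : ℤ) : ℝ)) +
      (((Yg d m (bt r b j * b) : ℤ) : ℝ) - ((Yg d m (min ⌊s * G⌋₊ r * b) : ℤ) : ℝ)) := by ring
    rw [h6]
    refine (abs_add_le _ _).trans ?_
    linarith
  have hYc : |c * ((Yg d m j : ℤ) : ℝ) - c * ((Yg d m (min ⌊s * G⌋₊ r * b) : ℤ) : ℝ)| ≤ 2 * w := by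
    rw [← mul_sub, abs_mul, abs_of_nonneg hc0]
    have h6 := abs_nonneg (((Yg d m j : ℤ) : ℝ) - ((Yg d m (min ⌊s * G⌋₊ r * b) : ℤ) : ℝ))
    nlinarith
  have d1 := abs_le.1 h3
  have d2 := abs_le.1 hYc
  rw [abs_le]
  constructor <;> linarith

end Pool.Agent.H55.BG.DETT
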