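import Pool.Agent.H55.BZ.Stm2
import Pool.Agent.H55.BZ.TUB2

/-!
# Project BG (MP_edb5be_nt, MP_d0d59f_nt): shape and fate for all `3x+d` maps, on both sides

`d` is odd and prime to `3` (positive or negative), the starting points are the large positive integers; the negative
side of `3x+d` is the positive side of `3x-d` (`side_inv` in `H499R2/NDK.lean`). Everything is an adaptation of the
projects DK and BZ (`d = 1`). Definitions and stubs.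
-/

set_option autoImplicit false

namespace Pool.Agent.H55.BG

open Pool.Agent.H320R2.PD Pool.Agent.H499R2.ND Finset Filter Topology MeasureTheory ProbabilityTheory
open scoped NNReal
open Pool.Agent.TH977.IP (Sy ex stf)
open Pool.Agent.H499R2.ND.TJ (PP)
open Pool.Agent.H319R2.Lln (mu)
open Pool.Agent.H55.DK (WEf Gf Dv Yw stp oddSum)
open Pool.Agent.Results.MP_f7abf1_nt.BlockLaw (blocks oddCount HasDensity)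

variable (d : ℤ)

/-! ## the chain (`DK/{ERR,COMP,MEM,STAGE,PULL}.lean` with `d` in the place of `1`) -/

/-- starting points whose stages have sums `l` and whose endpoint is in `F l` -/
def SEf : List ℕ → (List ℕ → Set ℤ) → Set ℤ
  | [], F => F []
  | k :: ks, F => {M | ∀ w : List ℕ, w.length = k → (∀ a ∈ w, 1 ≤ a) → ∀ x : ℤ, Odd x → Vw d w M x →
      x ∈ SEf ks (fun l => F (w.sum :: l))}

def S_ERR : Prop := ∃ C t0 : ℝ, 0 < C ∧ 1000 ≤ t0 ∧ ∀ A : ℝ, 0 < A → t0 ≤ Real.log A → ∀ k m m' : ℕ,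
  (m : ℝ) ^ 16 ≤ Real.log A → Real.log A ≤ (k : ℝ) ^ 8 → (k : ℝ) ≤ Real.log A / 2 →
  m' = ⌊(0.8 * Real.log A) ^ (1 / 16 : ℝ)⌋₊ → 1 ≤ k ∧ m' ≤ k ∧ Err d A k m m' ≤ C / (Real.log A) ^ 3

def S_COMP : Prop := ∀ N : ℕ, 20 ≤ N → ∃ C t0 : ℝ, 0 < C ∧ 1000 ≤ t0 ∧ ∀ τ : ℝ, t0 ≤ τ →
  ∀ (ks : List ℕ) (cap : ℕ), (∀ k ∈ ks, 3 * k ≤ cap) → ∀ (F : List ℕ → Set ℤ) (ρ : List ℕ → ℝ),
  (∀ l, 0 ≤ ρ l) → ∀ A : ℝ, 0 < A →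
    Gf N τ ks (fun l A' => ∀ m : ℕ, (m : ℝ) ^ 16 ≤ Real.log A' → PB (F l) A' m (ρ l)) A →
    ∀ m : ℕ, (m : ℝ) ^ 16 ≤ Real.log A → PB (SEf d ks F) A m (WEf cap ks ρ + ks.length * (C / τ ^ 3))

def S_MEM : Prop := ∀ (ks : List ℕ) (F : List ℕ → Set ℤ) (M : ℤ),
  (Sy d)^[ks.sum] M ∈ F (stf ks fun j => ex d ((Sy d)^[j] M)) → M ∈ SEf d ks F

/-- `2 j` minus the sum of the first `j` waiting times, for an integer -/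
def Yz (M : ℤ) (j : ℕ) : ℤ := 2 * (j : ℤ) - ∑ i ∈ range j, (ex d ((Sy d)^[i] M) : ℤ)

def S_STAGE : Prop := ∃ C t0 : ℝ, 0 < C ∧ 1000 ≤ t0 ∧ ∀ A : ℝ, 0 < A → t0 ≤ Real.log A → ∀ q : ℕ,
  (q : ℝ) ≤ Real.log A / 8 → ∀ lam b : ℝ, 0 ≤ lam → lam ≤ 1 / 4 → 12 * (Real.log A) ^ (1 / 4 : ℝ) ≤ b →
  ∀ m : ℕ, (m : ℝ) ^ 16 ≤ Real.log A → PB {M : ℤ | ∃ j ≤ q, b < |((Yz d M j : ℤ) : ℝ)|} A m
    (4 * Real.exp (2 * lam ^ 2 * (q + 2 * (Real.log A) ^ (1 / 4 : ℝ) + 1) - lam * b / 2) + C / (Real.log A) ^ 2)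

def S_PULL : Prop := ∀ κ η : ℝ, 0 < κ → κ ≤ 1 → 0 < η → ∃ L0 : ℝ, ∀ L : ℝ, L0 ≤ L → ∀ (S : Set ℤ) (ρ : ℝ), 0 ≤ ρ →
  ∀ K : ℕ, (K = 0 ∨ Real.sqrt L ≤ K) → 2 * mu * K ≤ (1 - κ) * L →
  (∀ A' : ℝ, 0 < A' → |Real.log A' - (L - 2 * mu * K)| ≤ κ * L / 4 → ∀ m : ℕ, (m : ℝ) ^ 16 ≤ Real.log A' → PB S A' m ρ) →
  ∀ A : ℝ, 0 < A → |Real.log A - L| ≤ κ * L / 8 → PB {M : ℤ | (Sy d)^[K] M ∈ S} A 0 (ρ + η)

/-! ## paths of positive integers -/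

/-- waiting times of `n` -/
def wt (n j : ℕ) : ℕ := ex d ((Sy d)^[j] (n : ℤ))

/-- sum of the first `j` waiting times -/
def Sg (n j : ℕ) : ℕ := ∑ i ∈ range j, wt d n i

def Yg (n j : ℕ) : ℤ := 2 * (j : ℤ) - (Sg d n j : ℤ)

noncomputable def devG (n k : ℕ) : ℝ :=
  Real.log |(((Td d)^[k] (n : ℤ) : ℤ) : ℝ)| - Real.log n + k / 2 * Real.log (4 / 3)

noncomputable def pathG (n : ℕ) (s : ℝ) : ℝ := devG d n ⌊s * (2 * Real.log n / Real.log (4 / 3))⌋₊ / BZ.scaleT n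

/-- control inside the blocks -/
def Ct (w : ℝ) (r b n : ℕ) : Prop := ∀ i < r, ∀ j ≤ b, |((Yg d n (i * b + j) - Yg d n (i * b) : ℤ) : ℝ)| ≤ w

/-- BG-CTL: `BZ/CTL.lean` with `d` (from `S_STAGE d`, `S_PULL d`, `DK.S_COUNT`) -/
def S_CTL : Prop := ∀ ε η κ : ℝ, 0 < ε → 0 < η → 0 < κ → κ ≤ 1 / 4 →
  ∃ r₀ : ℕ, 0 < r₀ ∧ ∀ r : ℕ, r₀ ≤ r → ∀ᶠ X : ℕ in atTop, ∀ b : ℕ, 0 < b →
    (1 - 2 * κ) * Real.log X ≤ r * b * Real.log (4 / 3) → r * b * Real.log (4 / 3) ≤ (1 - κ) * Real.log X →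
    oddCount X (fun n => ¬ Ct d (ε * Real.sqrt (Real.log X)) r b n) ≤ η * X

open Classical in
/-- BG-TVP: (i) the block law for `d`, as in the proof of `BlockLaw.result.1`
(`Pool/Agent/H55/G/R_seed8/Results/MP_f7abf1_nt/BlockLaw.lean`, lines 224-283; `inv_law` in `TH977/IP/Fin1.lean`, which is
stated for `d = 1`, has to be copied with `d`: `law`, `class_bound`, `odd_count`, `ZE_inv` are for all `d`, `hd` is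
`|d| ≤ exp (κ log N / 20)` for large `N`); (ii) then `BZ/TVP.lean` with `wt d` in the place of `wait` -/
def S_TVP : Prop := ∀ S : Set ℤ, Inv d S → ∀ δ : ℝ, HasDensity (fun n : ℕ => (n : ℤ) ∈ S) δ →
  ∀ κ ε : ℝ, 0 < κ → 0 < ε → ∀ᶠ X : ℕ in atTop, ∀ r b : ℕ,
  κ * Real.log X ≤ b → ((r * b : ℕ) : ℝ) ≤ (1 - κ) * Real.log X / Real.log (4 / 3) →
  ∀ Φ : (Fin r → ℕ) → ℝ, (∀ v, 0 ≤ Φ v ∧ Φ v ≤ 1) →
  |oddSum X (fun m => if (m : ℤ) ∈ S then Φ (blocks (fun i => i * b) r (wt d m)) else 0) -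
    δ / 2 * (∫ ω : ℕ → ℕ, Φ (blocks (fun i => i * b) r (fun j => ω j + 1)) ∂PP) * X| ≤ ε * X

/-- BG-CDT: `BZ/CDT.lean` for `d`. The odd terms number `i < J` are `≥ |d| J` (so positive). The correction
`E m j = ∑_{i<j} log (1 + d / (3 Sy^i m))` satisfies `|E m j| ≤ ∑_{i<j} 2 |d| / (3 Sy^i m) ≤ 2/3`. -/
def S_CDT : Prop := ∀ v m J : ℕ, m % 2 = 1 → (∀ i < J, |d| * J ≤ (Sy d)^[i] (m : ℤ)) → ∀ k ≤ v + Sg d m J, ∃ j ≤ J,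
    |devG d (2 ^ v * m) k - Real.log 3 / 2 * (Yg d m j : ℤ)| ≤ |((Yg d m (j + 1) - Yg d m j : ℤ) : ℝ)| + (v + 10) ∧
    |(k : ℝ) - 2 * j| ≤ v + 3 + |((Yg d m j : ℤ) : ℝ)| + |((Yg d m (j + 1) : ℤ) : ℝ)|

/-- BG-DETT (helper55): from `S_CDT d` -/
def S_DETT : Prop := ∀ η : ℝ, 0 < η → ∃ e : ℝ, 0 < e ∧ ∀ κ : ℝ, 0 < κ → κ < 1 → ∀ g h v : ℕ, 4 / κ ≤ g → 0 < h →
  ∀ θ : ℝ, 0 < θ → ∀ᶠ X : ℕ in atTop, ∀ b : ℕ, b = ⌊Real.log X / Real.log (4 / 3) / (g * h : ℕ)⌋₊ → ∀ m : ℕ, m ≤ X →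
    θ * X ≤ m → m % 2 = 1 → Ct d (e * Real.sqrt (Real.log X)) ((g - 1) * h) b m → ∀ s : ℝ, 0 ≤ s → s ≤ 1 - κ →
    |pathG d (2 ^ v * m) s - stp (g * h) (fun i : Fin ((g - 1) * h) =>
      ((Yg d m (((i : ℕ) + 1) * b) - Yg d m ((i : ℕ) * b) : ℤ) : ℝ) / Real.sqrt (2 * (g * h : ℕ) * b)) s| ≤ η

open Classical in
/-- BG-FCL (helper55) -/
def S_FCL : Prop := ∀ S : Set ℤ, Inv d S → ∀ δ : ℝ, HasDensity (fun n : ℕ => (n : ℤ) ∈ S) δ →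
  ∀ (Ω : Type) [MeasurableSpace Ω] (P' : Measure Ω) [IsProbabilityMeasure P'] (B : ℝ≥0 → Ω → ℝ),
  IsBrownianReal B P' → ∀ κ : ℝ, 0 < κ → κ < 1 → ∀ F : (ℝ → ℝ) → ℝ, BZ.AdmT (1 - κ) F →
  Tendsto (fun N : ℕ => (∑ n ∈ Icc 1 N, if (n : ℤ) ∈ S then F (pathG d n) else 0) / N) atTop
    (𝓝 (δ * ∫ ω, F (fun s => B s.toNNReal ω) ∂P'))

/-- the trajectory of `n` follows the profile `f` on `[0, a]` up to `ε` -/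
def Fol (f : ℝ → ℝ) (a ε : ℝ) (n : ℕ) : Prop := ∀ s : ℝ, 0 ≤ s → s ≤ a → |pathG d n s - f s| ≤ ε

/-- BG-CNT (helper55) -/
def S_CNT : Prop := ∀ f : ℝ → ℝ, ContinuousOn f (Set.Icc 0 1) → f 0 = 0 → ∀ κ ε : ℝ, 0 < κ → κ < 1 → 0 < ε →
  ∃ c : ℝ, 0 < c ∧ ∀ S : Set ℤ, Inv d S → ∀ δ : ℝ, HasDensity (fun n : ℕ => (n : ℤ) ∈ S) δ → 0 ≤ δ →
    ∀ᶠ N : ℕ in atTop, c * δ * N ≤ ({n : ℕ | 1 ≤ n ∧ n ≤ N ∧ (n : ℤ) ∈ S ∧ Fol d f (1 - κ) ε n}.ncard : ℝ)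

end Pool.Agent.H55.BG
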